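import Pool.Agent.WT59.Outer

/-!
The omitted elements of a closed family of blocks are dependent (note 2037 of MP_e6151a_ag), combinatorial part.

`Ok k q E S`: `|X \ S| ≤ k X + q X` for all `X ⊆ E`; `X` is tight for `S` if equality holds; `FF k q E S` is the largest tight set.
`𝒦` is a family of `n`-sets `b` with `Ok k q E b`.  Suppose that for all `Z` with `n + 1` elements the set of the `h ∈ Z` with
`Z - h ∈ 𝒦`, if it is not empty, is dependent in `q / FF Z`.  Then the same holds for all sets `S` with at least `n + 1` elements which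
contain a member of `𝒦` (`dep37`), for the set `US 𝒦 S` of elements of `S` missed by some member of `𝒦` inside `S`.
-/

set_option autoImplicit false

namespace Pool.Agent.WT59

open Finset Pool.Agent.DT3 Pool.Agent.CF98

variable {α : Type*} [DecidableEq α] {k q r : Finset α → ℕ} {E S X X' Y Z P B b : Finset α} {x y : α} {n : ℕ}
  {𝒦 : Finset α → Prop}

/-- The complement of `S` satisfies the union condition. -/
def Ok (k q : Finset α → ℕ) (E S : Finset α) : Prop := ∀ X ⊆ E, (X \ S).card ≤ k X + q X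

/-- `X` is tight for `S`. -/
def Ti (k q : Finset α → ℕ) (S X : Finset α) : Prop := (X \ S).card = k X + q X

open Classical in
/-- The tight sets. -/
noncomputable def TS (k q : Finset α → ℕ) (E S : Finset α) : Finset (Finset α) :=
  E.powerset.filter fun X => Ti k q S X

theorem mem_TS : X ∈ TS k q E S ↔ X ⊆ E ∧ Ti k q S X := by
  classical
  unfold TS
  rw [mem_filter, mem_powerset]

/-- The largest tight set. -/
noncomputable def FF (k q : Finset α → ℕ) (E S : Finset α) : Finset α := (TS k q E S).sup id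

open Classical in
/-- The elements of `S` missed by a member of `𝒦` inside `S`. -/
noncomputable def US (𝒦 : Finset α → Prop) (S : Finset α) : Finset α :=
  S.filter fun h => ∃ b, 𝒦 b ∧ b ⊆ S ∧ h ∉ b

theorem ti_cup (hk : RankFn k) (hq : RankFn q) :
    k (X ∪ X') + q (X ∪ X') + (k (X ∩ X') + q (X ∩ X')) + ((X \ S).card + (X' \ S).card) ≤
      (k X + q X) + (k X' + q X') + (((X ∪ X') \ S).card + ((X ∩ X') \ S).card) := by
  have h1 := hk.submod X X'
  have h2 := hq.submod X X'
  have h3 := card_union_add_card_inter (X \ S) (X' \ S)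
  have h4 : X \ S ∩ (X' \ S) = (X ∩ X') \ S := by
    ext z
    simp only [mem_inter, mem_sdiff]
    tauto
  rw [← union_sdiff_distrib, h4] at h3
  omega

theorem ok_sub (hS : Ok k q E b) (hb : b ⊆ S) : Ok k q E S := fun X hX =>
  (card_le_card (sdiff_subset_sdiff (Subset.refl X) hb)).trans (hS X hX)

theorem FF_sub : FF k q E S ⊆ E := by
  unfold FF
  exact Finset.sup_le fun X hX => (mem_TS.1 hX).1

theorem FF_max (hX : X ⊆ E) (ht : Ti k q S X) : X ⊆ FF k q E S := by
  unfold FF
  exact Finset.le_sup (f := id) (mem_TS.2 ⟨hX, ht⟩)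

theorem ti_empty (hk : RankFn k) (hq : RankFn q) : Ti k q S ∅ := by
  unfold Ti
  rw [hk.empty, hq.empty]; simp

theorem ti_union (hk : RankFn k) (hq : RankFn q) (hS : Ok k q E S) (hX : X ⊆ E) (hX' : X' ⊆ E)
    (h1 : Ti k q S X) (h2 : Ti k q S X') : Ti k q S (X ∪ X') := by
  unfold Ti at *
  have h3 := ti_cup (X := X) (X' := X') (S := S) hk hq
  have h4 := hS (X ∪ X') (union_subset hX hX')
  have h5 := hS (X ∩ X') (inter_subset_left.trans hX)
  omega

theorem FF_ti (hk : RankFn k) (hq : RankFn q) (hS : Ok k q E S) : Ti k q S (FF k q E S) := by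
  classical
  have key : ∀ s : Finset (Finset α), (∀ X ∈ s, X ⊆ E ∧ Ti k q S X) → s.sup id ⊆ E ∧ Ti k q S (s.sup id) := by
    intro s
    induction s using Finset.induction_on with
    | empty => intro _; exact ⟨empty_subset _, ti_empty hk hq⟩
    | insert X s _ ih =>
      intro h
      have h1 := ih fun Y hY => h Y (mem_insert_of_mem hY)
      have h2 := h X (mem_insert_self X s)
      rw [sup_insert]
      exact ⟨union_subset h2.1 h1.1, ti_union hk hq hS h2.1 h1.1 h2.2 h1.2⟩
  unfold FF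
  refine (key _ ?_).2
  intro X hX
  exact mem_TS.1 hX

/-- A tight set of `S` does not meet `S \ b`. -/
theorem ti_disj (hb : Ok k q E b) (hbS : b ⊆ S) (hX : X ⊆ E) (ht : Ti k q S X) :
    ∀ y ∈ S, y ∉ b → y ∉ X := by
  intro y hyS hyb hyX
  have h1 := hb X hX
  unfold Ti at ht
  have h2 : X \ S ⊂ X \ b := by
    rw [ssubset_iff_of_subset (sdiff_subset_sdiff (Subset.refl X) hbS)]
    exact ⟨y, mem_sdiff.2 ⟨hyX, hyb⟩, fun h => (mem_sdiff.1 h).2 hyS⟩
  have h3 := card_lt_card h2
  omega

private theorem card_er (hxS : x ∈ S) :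
    (X \ S.erase x).card = (X \ S).card + (if x ∈ X then 1 else 0) := by
  split_ifs with hx
  · have h1 : X \ S.erase x = insert x (X \ S) := by
      ext z
      simp only [mem_sdiff, mem_erase, mem_insert, ne_eq]
      constructor
      · rintro ⟨h1, h2⟩
        by_cases h3 : z = x
        · exact Or.inl h3
        · exact Or.inr ⟨h1, fun h4 => h2 ⟨h3, h4⟩⟩
      · rintro (h1 | h1)
        · subst h1; exact ⟨hx, fun h => h.1 rfl⟩
        · exact ⟨h1.1, fun h => h1.2 h.2⟩
    rw [h1, card_insert_of_notMem]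
    exact fun h => (mem_sdiff.1 h).2 hxS
  · have h1 : X \ S.erase x = X \ S := by
      ext z
      simp only [mem_sdiff, mem_erase, ne_eq]
      constructor
      · rintro ⟨h1, h2⟩
        refine ⟨h1, fun h4 => h2 ⟨fun h3 => hx (h3 ▸ h1), h4⟩⟩
      · rintro ⟨h1, h2⟩
        exact ⟨h1, fun h => h2 h.2⟩
    rw [h1, add_zero]

/-- Submodularity over a sunflower, any base `B`. -/
private theorem sub_sup (h : RankFn r) (B P : Finset α) (s : Finset (Finset α)) (hs : ∀ X ∈ s, P ⊆ X) :
    (r (B ∪ (P ∪ s.sup id)) : ℤ) ≤ r (B ∪ P) + ∑ X ∈ s, ((r (B ∪ X) : ℤ) - r (B ∪ P)) := by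
  classical
  induction s using Finset.induction_on with
  | empty => simp
  | insert X s hX ih =>
    have h1 := ih fun Y hY => hs Y (mem_insert_of_mem hY)
    rw [sup_insert, sum_insert hX]
    have h2 := h.submod (B ∪ (P ∪ s.sup id)) (B ∪ X)
    have h3 := h.mono (B ∪ P) ((B ∪ (P ∪ s.sup id)) ∩ (B ∪ X)) (by
      refine subset_inter ?_ ?_
      · exact union_subset_union (Subset.refl _) subset_union_left
      · exact union_subset_union (Subset.refl _) (hs X (mem_insert_self X s)))
    have h4 : B ∪ (P ∪ id X ⊔ s.sup id) = (B ∪ (P ∪ s.sup id)) ∪ (B ∪ X) := by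
      ext z
      simp only [mem_union, sup_eq_union, id]
      tauto
    rw [show B ∪ (P ∪ (id X ⊔ s.sup id)) = (B ∪ (P ∪ s.sup id)) ∪ (B ∪ X) by
      ext z
      simp only [mem_union, sup_eq_union, id]
      tauto]
    omega

/-- Cardinality of a sunflower. -/
private theorem card_sun (P D : Finset α) (s : Finset (Finset α)) (hs : ∀ X ∈ s, P ⊆ X)
    (hi : ∀ X ∈ s, ∀ X' ∈ s, X ≠ X' → X ∩ X' ⊆ P) :
    (((P ∪ s.sup id) ∩ D).card : ℤ) = (P ∩ D).card + ∑ X ∈ s, (((X ∩ D).card : ℤ) - (P ∩ D).card) := by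
  classical
  induction s using Finset.induction_on with
  | empty => simp
  | insert X s hX ih =>
    have h1 := ih (fun Y hY => hs Y (mem_insert_of_mem hY)) fun Y hY Y' hY' =>
      hi Y (mem_insert_of_mem hY) Y' (mem_insert_of_mem hY')
    rw [sum_insert hX]
    have h2 := card_union_add_card_inter ((P ∪ s.sup id) ∩ D) (X ∩ D)
    have h3 : (P ∪ s.sup id) ∩ D ∩ (X ∩ D) = P ∩ D := by
      ext z
      simp only [mem_inter, mem_union]
      constructor
      · rintro ⟨⟨h3 | h3, h4⟩, h5, h6⟩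
        · exact ⟨h3, h4⟩
        · obtain ⟨Y, hY, hzY⟩ : ∃ Y ∈ s, z ∈ Y := by
            have := mem_sup.1 h3
            obtain ⟨Y, hY, h7⟩ := this
            exact ⟨Y, hY, h7⟩
          have hne : Y ≠ X := fun e => hX (e ▸ hY)
          exact ⟨hi Y (mem_insert_of_mem hY) X (mem_insert_self X s) hne (mem_inter.2 ⟨hzY, h5⟩), h4⟩
      · rintro ⟨h3, h4⟩
        exact ⟨⟨Or.inl h3, h4⟩, hs X (mem_insert_self X s) h3, h4⟩
    have h4 : (P ∪ s.sup id) ∩ D ∪ X ∩ D = (P ∪ (insert X s).sup id) ∩ D := by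
      rw [sup_insert]
      ext z
      simp only [mem_union, mem_inter, sup_eq_union, id]
      tauto
    rw [h3, h4] at h2
    omega

theorem dep37 (hk : RankFn k) (hq : RankFn q)
    (h1 : ∀ b, 𝒦 b → b ⊆ E ∧ b.card = n ∧ Ok k q E b)
    (h2 : ∀ Z ⊆ E, Z.card = n + 1 → (∃ b, 𝒦 b ∧ b ⊆ Z) →
      q (FF k q E Z ∪ US 𝒦 Z) < q (FF k q E Z) + (US 𝒦 Z).card) (e : ℕ) :
    ∀ S ⊆ E, S.card = n + 1 + e → (∃ b, 𝒦 b ∧ b ⊆ S) →
      q (FF k q E S ∪ US 𝒦 S) < q (FF k q E S) + (US 𝒦 S).card := by
  classical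
  induction e with
  | zero => intro S hS hSc hb; exact h2 S hS hSc hb
  | succ e ih =>
    intro S hSE hSc hb
    by_contra hcon
    rw [not_lt] at hcon
    set P := FF k q E S with hPd
    set U := US 𝒦 S with hUd
    obtain ⟨b0, hb0, hb0S⟩ := hb
    have hOk : Ok k q E S := ok_sub (h1 b0 hb0).2.2 hb0S
    have hPE : P ⊆ E := FF_sub
    have hPt : Ti k q S P := FF_ti hk hq hOk
    have hUS : U ⊆ S := filter_subset _ _
    have hUE : U ⊆ E := hUS.trans hSE
    -- `U` misses `P`
    have hUP : ∀ y ∈ U, y ∉ P := by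
      intro y hy
      obtain ⟨hyS, b, hb, hbS, hyb⟩ := mem_filter.1 hy
      exact ti_disj (h1 b hb).2.2 hbS hPE hPt y hyS hyb
    have hUne : U.Nonempty := by
      have h3 : ¬ S ⊆ b0 := fun h => by
        have h4 := card_le_card h
        have h5 := (h1 b0 hb0).2.1
        omega
      obtain ⟨y, hyS, hyb⟩ := not_subset.1 h3
      exact ⟨y, mem_filter.2 ⟨hyS, b0, hb0, hb0S, hyb⟩⟩
    -- data for `x ∈ U`
    let Q : α → Finset α := fun x => FF k q E (S.erase x)
    have hQ : ∀ x ∈ U, (∃ b, 𝒦 b ∧ b ⊆ S.erase x) := by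
      intro x hx
      obtain ⟨_, b, hb, hbS, hxb⟩ := mem_filter.1 hx
      exact ⟨b, hb, fun z hz => mem_erase.2 ⟨fun e => hxb (e ▸ hz), hbS hz⟩⟩
    have hQok : ∀ x ∈ U, Ok k q E (S.erase x) := by
      intro x hx
      obtain ⟨b, hb, hbS⟩ := hQ x hx
      exact ok_sub (h1 b hb).2.2 hbS
    have hQE : ∀ x, Q x ⊆ E := fun x => FF_sub
    have hQt : ∀ x ∈ U, Ti k q (S.erase x) (Q x) := fun x hx => FF_ti hk hq (hQok x hx)
    have hQd : ∀ x ∈ U, q (Q x ∪ US 𝒦 (S.erase x)) < q (Q x) + (US 𝒦 (S.erase x)).card := by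
      intro x hx
      exact ih (S.erase x) ((erase_subset _ _).trans hSE) (by rw [card_erase_of_mem (hUS hx)]; omega) (hQ x hx)
    have hPQ : ∀ x ∈ U, P ⊆ Q x := by
      intro x hx
      refine FF_max hPE ?_
      unfold Ti
      rw [card_er (hUS hx), if_neg (hUP x hx), add_zero]
      exact hPt
    have hUsub : ∀ x, US 𝒦 (S.erase x) ⊆ U := by
      intro x y hy
      obtain ⟨hyS, b, hb, hbS, hyb⟩ := mem_filter.1 hy
      exact mem_filter.2 ⟨mem_of_mem_erase hyS, b, hb, hbS.trans (erase_subset _ _), hyb⟩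
    -- independence of `U` over `P`, inherited by subsets
    have hind : ∀ V ⊆ U, q (P ∪ V) = q P + V.card := by
      intro V hV
      have h3 := rk_le_union_card hq P V
      have h4 := rk_le_union_card hq (P ∪ V) (U \ V)
      rw [union_assoc, union_sdiff_of_subset hV] at h4
      have h5 := card_sdiff_add_card_eq_card hV
      omega
    have hxQ : ∀ x ∈ U, x ∈ Q x := by
      intro x hx
      by_contra hn
      have h3 : Q x ⊆ P := by
        refine FF_max (hQE x) ?_
        have h4 := hQt x hx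
        unfold Ti at *
        rw [card_er (hUS hx), if_neg hn, add_zero] at h4
        exact h4
      have h4 : Q x = P := Subset.antisymm h3 (hPQ x hx)
      have h5 := hQd x hx
      rw [h4, hind _ (hUsub x)] at h5
      omega
    have hQS : ∀ x ∈ U, ((Q x) \ S).card + 1 = k (Q x) + q (Q x) := by
      intro x hx
      have h4 := hQt x hx
      unfold Ti at h4
      rw [card_er (hUS hx), if_pos (hxQ x hx)] at h4
      exact h4
    have hQle : ∀ x ∈ U, ∀ x' ∈ U, x' ∈ Q x → Q x ⊆ Q x' := by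
      intro x hx x' hx' hm
      refine FF_max (hQE x) ?_
      unfold Ti
      rw [card_er (hUS hx'), if_pos hm]
      exact hQS x hx
    have hQeq : ∀ x ∈ U, ∀ x' ∈ U, x' ∈ Q x → Q x = Q x' := by
      intro x hx x' hx' hm
      have h3 := hQle x hx x' hx' hm
      exact Subset.antisymm h3 (hQle x' hx' x hx (h3 (hxQ x hx)))
    have hQint : ∀ x ∈ U, ∀ x' ∈ U, Q x ≠ Q x' → Q x ∩ Q x' ⊆ P := by
      intro x hx x' hx' hne
      have hsub := ti_cup (X := Q x) (X' := Q x') (S := S) hk hq
      have h3 := hQS x hx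
      have h4 := hQS x' hx'
      have hU1 := hOk (Q x ∪ Q x') (union_subset (hQE x) (hQE x'))
      have hI1 := hOk (Q x ∩ Q x') (inter_subset_left.trans (hQE x))
      -- `σ (Q x ∪ Q x') ≥ 2`
      have h5 : ((Q x ∪ Q x') \ S).card + 2 ≤ k (Q x ∪ Q x') + q (Q x ∪ Q x') := by
        by_contra hlt
        rw [not_le] at hlt
        have h6 := hQok x hx (Q x ∪ Q x') (union_subset (hQE x) (hQE x'))
        rw [card_er (hUS hx), if_pos (mem_union_left _ (hxQ x hx))] at h6
        have h7 : Q x ∪ Q x' ⊆ Q x := by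
          refine FF_max (union_subset (hQE x) (hQE x')) ?_
          unfold Ti
          rw [card_er (hUS hx), if_pos (mem_union_left _ (hxQ x hx))]
          omega
        exact hne (hQeq x hx x' hx' (h7 (mem_union_right _ (hxQ x' hx'))))
      refine FF_max (inter_subset_left.trans (hQE x)) ?_
      unfold Ti
      omega
    -- the classes
    let s : Finset (Finset α) := U.image Q
    have hsP : ∀ X ∈ s, P ⊆ X := by
      intro X hX
      obtain ⟨x, hx, rfl⟩ := mem_image.1 hX
      exact hPQ x hx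
    have hsi : ∀ X ∈ s, ∀ X' ∈ s, X ≠ X' → X ∩ X' ⊆ P := by
      intro X hX X' hX' hne
      obtain ⟨x, hx, rfl⟩ := mem_image.1 hX
      obtain ⟨x', hx', rfl⟩ := mem_image.1 hX'
      exact hQint x hx x' hx' hne
    set V := P ∪ s.sup id with hVd
    have hUV : U ⊆ V := by
      intro x hx
      refine mem_union_right _ (mem_sup.2 ⟨Q x, mem_image_of_mem Q hx, hxQ x hx⟩)
    have hVE : V ⊆ E := by
      refine union_subset hPE (Finset.sup_le fun X hX => ?_)
      obtain ⟨x, hx, rfl⟩ := mem_image.1 hX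
      exact hQE x
    have e1 := sub_sup hk ∅ P s hsP
    have e2 := sub_sup hq U P s hsP
    have e3 := card_sun P U s hsP hsi
    have e4 := card_sun P (E \ S) s hsP hsi
    rw [← hVd] at e1 e2 e3 e4
    simp only [empty_union] at e1
    have hUVe : U ∪ V = V := union_eq_right.2 hUV
    have hVU : V ∩ U = U := inter_eq_right.2 hUV
    have hPU : P ∩ U = ∅ := by
      rw [← disjoint_iff_inter_eq_empty, disjoint_left]
      intro y hy hy'
      exact hUP y hy' hy
    have hES : ∀ X ⊆ E, X ∩ (E \ S) = X \ S := by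
      intro X hX
      ext z
      simp only [mem_inter, mem_sdiff]
      constructor
      · rintro ⟨h3, h4, h5⟩; exact ⟨h3, h5⟩
      · rintro ⟨h3, h4⟩; exact ⟨h3, hX h3, h4⟩
    rw [hUVe] at e2
    rw [hVU, hPU, card_empty] at e3
    rw [hES V hVE, hES P hPE] at e4
    have e5 : ∀ X ∈ s, ((k X : ℤ) - k P) + ((q (U ∪ X) : ℤ) - q (U ∪ P)) ≤
        (((X ∩ (E \ S)).card : ℤ) - (P \ S).card) - (((X ∩ U).card : ℤ) - (0 : ℕ)) := by
      intro X hX
      obtain ⟨x, hx, rfl⟩ := mem_image.1 hX
      rw [hES _ (hQE x)]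
      have h3 := hQd x hx
      have h4 := hQS x hx
      have h5 := hind U (Subset.refl _)
      rw [union_comm] at h5
      have h6 : US 𝒦 (S.erase x) ⊆ U \ Q x := by
        intro y hy
        refine mem_sdiff.2 ⟨hUsub x hy, ?_⟩
        obtain ⟨hyS, b, hb, hbS, hyb⟩ := mem_filter.1 hy
        exact ti_disj (h1 b hb).2.2 hbS (hQE x) (hQt x hx) y hyS hyb
      have h7 := card_sdiff_add_card_eq_card h6
      have h8 := rk_le_union_card hq (Q x ∪ US 𝒦 (S.erase x)) ((U \ Q x) \ US 𝒦 (S.erase x))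
      rw [union_assoc, union_sdiff_of_subset h6, union_sdiff_self_eq_union, union_comm (Q x) U] at h8
      have h9 := card_sdiff_add_card_inter U (Q x)
      rw [inter_comm] at h9
      have h10 := hPt
      unfold Ti at h10
      omega
    have e6 := sum_le_sum e5
    rw [sum_add_distrib, sum_sub_distrib (f := fun X => ((X ∩ (E \ S)).card : ℤ) - (P \ S).card)] at e6
    have h5 := hind U (Subset.refl _)
    rw [union_comm] at h5
    have h10 := hPt
    unfold Ti at h10
    have h11 := hOk V hVE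
    have h12 : V ⊆ P := by
      refine FF_max hVE ?_
      unfold Ti
      omega
    obtain ⟨y, hy⟩ := hUne
    exact hUP y hy (h12 (hUV hy))

end Pool.Agent.WT59
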