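import Pool.Agent.WT59.Skew

/-!
States of a triple of matroids (rank functions `p`, `k`, `q`) on `E`: partitions `E = A ∪ B ∪ C` into a basis `A` of `p`, a basis `B` of
`k` and a basis `C` of `q`.  A class function `c` has the same value on two states with a common block in the same slot.

* `split2`: a set `Y` with `|Y| = k Y + q Y` and `|X| ≤ k X + q X` for all `X ⊆ Y` is the union of a basis of `k` and a basis of `q`.
* `St.comm`, `St.rot`: permutations of the slots.
-/

set_option autoImplicit false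

namespace Pool.Agent.WT59

open Finset Pool.Agent.DT3 Pool.Agent.CF98

variable {α : Type*} [DecidableEq α] {p k q r : Finset α → ℕ} {E Y Z A B C A' B' C' F : Finset α}
  {c : Finset α → Finset α → Finset α → Prop}

/-- A partition of `E` into bases of `p`, `k`, `q`. -/
structure St (p k q : Finset α → ℕ) (E A B C : Finset α) : Prop where
  ca : A.card = p E
  ra : p A = p E
  cb : B.card = k E
  rb : k B = k E
  cc : C.card = q E
  rc : q C = q E
  dab : Disjoint A B
  dac : Disjoint A C
  dbc : Disjoint B C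
  un : A ∪ B ∪ C = E

/-- `c` has the same value on two states with a common block (in the same slot). -/
structure Cls (p k q : Finset α → ℕ) (E : Finset α) (c : Finset α → Finset α → Finset α → Prop) : Prop where
  sa : ∀ A B C B' C', St p k q E A B C → St p k q E A B' C' → (c A B C ↔ c A B' C')
  sb : ∀ A B C A' C', St p k q E A B C → St p k q E A' B C' → (c A B C ↔ c A' B C')
  sc : ∀ A B C A' B', St p k q E A B C → St p k q E A' B' C → (c A B C ↔ c A' B' C)

theorem St.swap12 (h : St p k q E A B C) : St k p q E B A C :=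
  ⟨h.cb, h.rb, h.ca, h.ra, h.cc, h.rc, h.dab.symm, h.dbc, h.dac, by rw [union_comm B A]; exact h.un⟩

theorem St.swap23 (h : St p k q E A B C) : St p q k E A C B :=
  ⟨h.ca, h.ra, h.cc, h.rc, h.cb, h.rb, h.dac, h.dab, h.dbc.symm, by
    rw [union_assoc, union_comm C B, ← union_assoc]; exact h.un⟩

theorem St.swap13 (h : St p k q E A B C) : St q k p E C B A :=
  h.swap12.swap23.swap12

theorem Cls.swap12 (h : Cls p k q E c) : Cls k p q E (fun A B C => c B A C) :=
  ⟨fun A B C B' C' h1 h2 => h.sb B A C B' C' h1.swap12 h2.swap12,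
    fun A B C A' C' h1 h2 => h.sa B A C A' C' h1.swap12 h2.swap12,
    fun A B C A' B' h1 h2 => h.sc B A C B' A' h1.swap12 h2.swap12⟩

theorem Cls.swap23 (h : Cls p k q E c) : Cls p q k E (fun A B C => c A C B) :=
  ⟨fun A B C B' C' h1 h2 => h.sa A C B C' B' h1.swap23 h2.swap23,
    fun A B C A' C' h1 h2 => h.sc A C B A' C' h1.swap23 h2.swap23,
    fun A B C A' B' h1 h2 => h.sb A C B A' B' h1.swap23 h2.swap23⟩

theorem Cls.neg (h : Cls p k q E c) : Cls p k q E (fun A B C => ¬ c A B C) :=
  ⟨fun A B C B' C' h1 h2 => not_congr (h.sa A B C B' C' h1 h2),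
    fun A B C A' C' h1 h2 => not_congr (h.sb A B C A' C' h1 h2),
    fun A B C A' B' h1 h2 => not_congr (h.sc A B C A' B' h1 h2)⟩

theorem St.subA (h : St p k q E A B C) : A ⊆ E := fun x hx => by
  rw [← h.un]; exact mem_union_left _ (mem_union_left _ hx)

theorem St.subB (h : St p k q E A B C) : B ⊆ E := fun x hx => by
  rw [← h.un]; exact mem_union_left _ (mem_union_right _ hx)

theorem St.subC (h : St p k q E A B C) : C ⊆ E := fun x hx => by
  rw [← h.un]; exact mem_union_right _ hx

theorem St.sdA (h : St p k q E A B C) : E \ A = B ∪ C := by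
  rw [← h.un, union_assoc, union_sdiff_cancel_left]
  exact disjoint_union_right.2 ⟨h.dab, h.dac⟩

/-- Two bases from the union condition. -/
theorem split2 (hk : RankFn k) (hq : RankFn q) (hY : Y.card = k Y + q Y)
    (hs : ∀ X ⊆ Y, X.card ≤ k X + q X) :
    ∃ C ⊆ Y, C.card = q Y ∧ q C = q Y ∧ (Y \ C).card = k Y ∧ k (Y \ C) = k Y := by
  have hd := rk_dual hk Y
  obtain ⟨C, hC, h1, h2, h3⟩ := matInt Y.card Y _ _ (q Y) le_rfl hq hd (by
    intro S hS
    show q Y ≤ q S + (((Y \ S) ∩ Y).card + k (Y \ (Y \ S)) - k Y)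
    rw [inter_eq_left.2 (sdiff_subset (s := Y) (t := S)), Finset.sdiff_sdiff_eq_self hS]
    have h1 := card_sdiff_add_card_eq_card hS
    have h2 := hs S hS
    omega)
  have h3' : (C ∩ Y).card + k (Y \ C) - k Y = q Y := h3
  rw [inter_eq_left.2 hC] at h3'
  have h4 := card_sdiff_add_card_eq_card hC
  have h5 := hk.mono (Y \ C) Y sdiff_subset
  have h6 := hk.le_card (Y \ C)
  refine ⟨C, hC, h1, h2, by omega, ?_⟩
  rcases Nat.eq_zero_or_pos (q Y) with h0 | h0
  · have h7 : C = ∅ := by rw [← card_eq_zero]; omega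
    rw [h7, sdiff_empty]
  · omega

end Pool.Agent.WT59
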