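import Pool.Agent.CF98.Good

/-!
Tools for `DISJ ⇒ White(3)`.

* `cyc`: a relation on a finite nonempty set in which everybody has a successor has a nonempty subset on which it is the graph of a
  bijection.
* `ls_exists`, `ti_un`, `key_ineq`: tight sets of a non-negative submodular function.
* `ins_inter`: closures of subsets of an independent set intersect in the closure of the intersection.
-/

set_option autoImplicit false

namespace Pool.Agent.WT59

open Finset Pool.Agent.DT3 Pool.Agent.CF98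

variable {α : Type*} [DecidableEq α] {r : Finset α → ℕ} {E X Y : Finset α}

/-- A sub-system on which the relation is the graph of a bijection. -/
theorem cyc {P : Finset α} (hP : P.Nonempty) (R : α → α → Prop)
    (hR : ∀ p ∈ P, ∃ p' ∈ P, R p p') :
    ∃ S ⊆ P, S.Nonempty ∧ ∃ g : α → α, (∀ p ∈ S, g p ∈ S ∧ R p (g p)) ∧
      Set.InjOn g (S : Set α) ∧ ∀ p ∈ S, ∀ p' ∈ S, R p p' → p' = g p := by
  classical
  have hne : (P.powerset.filter fun S => S.Nonempty ∧ ∀ p ∈ S, ∃ p' ∈ S, R p p').Nonempty :=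
    ⟨P, by rw [mem_filter]; exact ⟨mem_powerset_self P, hP, hR⟩⟩
  obtain ⟨S, hS, hm⟩ := exists_min_image _ card hne
  rw [mem_filter, mem_powerset] at hS
  obtain ⟨hSP, hSn, hSR⟩ := hS
  have hmin : ∀ S' ⊆ P, S'.Nonempty → (∀ p ∈ S', ∃ p' ∈ S', R p p') → S.card ≤ S'.card := by
    intro S' h1 h2 h3
    exact hm S' (by rw [mem_filter, mem_powerset]; exact ⟨h1, h2, h3⟩)
  choose! g hg using hSR
  have hg' : ∀ p ∈ S, g p ∈ S ∧ R p (g p) := fun p hp => hg p hp
  have himS : S.image g ⊆ S := by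
    intro y hy
    obtain ⟨x, hx, rfl⟩ := mem_image.1 hy
    exact (hg' x hx).1
  have hc : S.card ≤ (S.image g).card := by
    refine hmin _ (himS.trans hSP) (hSn.image g) ?_
    intro y hy
    exact ⟨g y, mem_image_of_mem g (himS hy), (hg' y (himS hy)).2⟩
  have hinj : Set.InjOn g (S : Set α) :=
    card_image_iff.1 (le_antisymm card_image_le hc)
  refine ⟨S, hSP, hSn, g, hg', hinj, ?_⟩
  intro p hp p' hp' hpp
  by_contra hne'
  have h1 := hmin (S.erase (g p)) ((erase_subset _ _).trans hSP)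
    ⟨p', mem_erase.2 ⟨hne', hp'⟩⟩ ?_
  · rw [card_erase_of_mem (hg' p hp).1] at h1
    have := hSn.card_pos
    omega
  · intro x hx
    have hx' := mem_erase.1 hx
    by_cases hxp : x = p
    · subst hxp
      exact ⟨p', mem_erase.2 ⟨hne', hp'⟩, hpp⟩
    · refine ⟨g x, mem_erase.2 ⟨?_, (hg' x hx'.2).1⟩, (hg' x hx'.2).2⟩
      intro h
      exact hxp (hinj hx'.2 hp h)

/-- Least tight sets. -/
theorem ls_exists {σ : Finset α → ℤ} (hs : ∀ X Y, σ (X ∪ Y) + σ (X ∩ Y) ≤ σ X + σ Y)
    (hn : ∀ X ⊆ E, 0 ≤ σ X) (hE : σ E = 0) :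
    ∃ A : α → Finset α, ∀ q ∈ E, A q ⊆ E ∧ σ (A q) = 0 ∧ q ∈ A q ∧
      ∀ X ⊆ E, σ X = 0 → q ∈ X → A q ⊆ X := by
  classical
  have h1 : ∀ q : α, ∃ A : Finset α, q ∈ E → A ⊆ E ∧ σ A = 0 ∧ q ∈ A ∧
      ∀ X ⊆ E, σ X = 0 → q ∈ X → A ⊆ X := by
    intro q
    by_cases hq : q ∈ E
    · have hne : (E.powerset.filter fun X => σ X = 0 ∧ q ∈ X).Nonempty :=
        ⟨E, by rw [mem_filter]; exact ⟨mem_powerset_self E, hE, hq⟩⟩
      obtain ⟨A, hA, hm⟩ := exists_min_image _ card hne
      rw [mem_filter, mem_powerset] at hA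
      refine ⟨A, fun _ => ⟨hA.1, hA.2.1, hA.2.2, fun X hX h0 hqX => ?_⟩⟩
      have h1 := hs A X
      have h2 := hn (A ∪ X) (union_subset hA.1 hX)
      have h3 := hn (A ∩ X) (inter_subset_left.trans hA.1)
      have h4 : σ (A ∩ X) = 0 := by
        rw [hA.2.1, h0] at h1
        omega
      have h5 := hm (A ∩ X) (by
        rw [mem_filter, mem_powerset]
        exact ⟨inter_subset_left.trans hA.1, h4, mem_inter.2 ⟨hA.2.2, hqX⟩⟩)
      have h6 : A ∩ X = A := eq_of_subset_of_card_le inter_subset_left h5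
      rw [← h6]
      exact inter_subset_right
    · exact ⟨∅, fun h => absurd h hq⟩
  choose A hA using h1
  exact ⟨A, fun q hq => hA q hq⟩

/-- A union of tight sets is tight. -/
theorem ti_un {ι : Type*} [DecidableEq ι] {σ : Finset α → ℤ}
    (hs : ∀ X Y, σ (X ∪ Y) + σ (X ∩ Y) ≤ σ X + σ Y)
    (hn : ∀ X ⊆ E, 0 ≤ σ X) (h0 : σ ∅ = 0) (J : Finset ι) (A : ι → Finset α)
    (hA : ∀ i ∈ J, A i ⊆ E ∧ σ (A i) = 0) : J.biUnion A ⊆ E ∧ σ (J.biUnion A) = 0 := by
  induction J using Finset.induction_on with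
  | empty => rw [biUnion_empty]; exact ⟨empty_subset E, h0⟩
  | insert i J hi ih =>
    obtain ⟨h1, h2⟩ := ih (fun j hj => hA j (mem_insert_of_mem hj))
    obtain ⟨h3, h4⟩ := hA i (mem_insert_self i J)
    rw [biUnion_insert]
    have h5 := hs (A i) (J.biUnion A)
    have h6 := hn (A i ∪ J.biUnion A) (union_subset h3 h1)
    have h7 := hn (A i ∩ J.biUnion A) (inter_subset_left.trans h3)
    refine ⟨union_subset h3 h1, ?_⟩
    rw [h4, h2] at h5
    omega

/-- If each of the least tight sets `A i`, `i ∈ J`, contains an element of `X` and an element outside `X` and outside the other sets then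
`|J| ≤ σ X`. -/
theorem key_ineq {ι : Type*} [DecidableEq ι] {σ : Finset α → ℤ}
    (hs : ∀ X Y, σ (X ∪ Y) + σ (X ∩ Y) ≤ σ X + σ Y)
    (hn : ∀ X ⊆ E, 0 ≤ σ X) (J : Finset ι) (A : ι → Finset α) (q g : ι → α)
    (hA : ∀ i ∈ J, A i ⊆ E ∧ σ (A i) = 0 ∧ ∀ Y ⊆ E, σ Y = 0 → q i ∈ Y → A i ⊆ Y)
    (hq : ∀ i ∈ J, q i ∈ A i) (hX : X ⊆ E)
    (hqX : ∀ i ∈ J, q i ∈ X) (hg : ∀ i ∈ J, g i ∈ A i) (hgX : ∀ i ∈ J, g i ∉ X)
    (hgA : ∀ i ∈ J, ∀ j ∈ J, i ≠ j → g i ∉ A j) : (J.card : ℤ) ≤ σ X := by
  have h1 : ∀ J' ⊆ J, X ∪ J'.biUnion A ⊆ E ∧ σ (X ∪ J'.biUnion A) + J'.card ≤ σ X := by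
    intro J'
    induction J' using Finset.induction_on with
    | empty =>
      intro _
      rw [biUnion_empty, union_empty, card_empty]
      exact ⟨hX, by simp⟩
    | insert i J' hi ih =>
      intro hJ
      obtain ⟨h1, h2⟩ := ih ((subset_insert i J').trans hJ)
      have hiJ := hJ (mem_insert_self i J')
      obtain ⟨h3, h4, h5⟩ := hA i hiJ
      have h6 := hs (X ∪ J'.biUnion A) (A i)
      have h7 := hn ((X ∪ J'.biUnion A) ∩ A i) (inter_subset_right.trans h3)
      have h8 : σ ((X ∪ J'.biUnion A) ∩ A i) ≠ 0 := by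
        intro h0
        have h9 := h5 _ (inter_subset_right.trans h3) h0
          (mem_inter.2 ⟨mem_union_left _ (hqX i hiJ), hq i hiJ⟩) (hg i hiJ)
        rcases mem_union.1 (mem_inter.1 h9).1 with h10 | h10
        · exact hgX i hiJ h10
        · obtain ⟨j, hj, hj'⟩ := mem_biUnion.1 h10
          refine hgA i hiJ j (hJ (mem_insert_of_mem hj)) ?_ hj'
          rintro rfl
          exact hi hj
      have h9 : X ∪ (insert i J').biUnion A = (X ∪ J'.biUnion A) ∪ A i := by
        rw [biUnion_insert, union_comm (A i), union_assoc]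
      rw [h9, card_insert_of_notMem hi]
      refine ⟨union_subset h1 h3, ?_⟩
      rw [h4] at h6
      push_cast
      have h10 : 1 ≤ σ ((X ∪ J'.biUnion A) ∩ A i) := by omega
      omega
  obtain ⟨h2, h3⟩ := h1 J (Subset.refl J)
  have h4 := hn _ h2
  omega

/-- Closures of subsets of an independent set. -/
theorem ins_inter (h : RankFn r) {B W : Finset α} {p : α} (hB : r B = B.card) (hp : p ∉ B)
    (hW : W ⊆ B) (hpB : r (insert p B) = r B)
    (hq : ∀ q ∈ W, r (insert p (B.erase q)) = r (B.erase q)) :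
    r (insert p (B \ W)) = r (B \ W) := by
  induction W using Finset.induction_on with
  | empty => rw [sdiff_empty]; exact hpB
  | insert q W hqW ih =>
    have h1 := ih ((subset_insert q W).trans hW) (fun q' hq' => hq q' (mem_insert_of_mem hq'))
    have h2 := hq q (mem_insert_self q W)
    have hqB := hW (mem_insert_self q W)
    have hWB : W ⊆ B := (subset_insert q W).trans hW
    have e1 : insert p (B \ W) ∪ insert p (B.erase q) = insert p B := by
      ext x
      simp only [mem_union, mem_insert, mem_sdiff, mem_erase]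
      constructor
      · rintro ((h | h) | (h | h))
        · exact Or.inl h
        · exact Or.inr h.1
        · exact Or.inl h
        · exact Or.inr h.2
      · rintro (h | h)
        · exact Or.inl (Or.inl h)
        · by_cases hx : x = q
          · exact Or.inl (Or.inr ⟨h, fun h' => hqW (hx ▸ h')⟩)
          · exact Or.inr (Or.inr ⟨hx, h⟩)
    have e2 : insert p (B \ W) ∩ insert p (B.erase q) = insert p (B \ insert q W) := by
      ext x
      simp only [mem_inter, mem_insert, mem_sdiff, mem_erase]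
      constructor
      · rintro ⟨h1 | h1, h2 | h2⟩
        · exact Or.inl h1
        · exact Or.inl h1
        · exact Or.inl h2
        · exact Or.inr ⟨h1.1, fun h' => h'.elim h2.1 h1.2⟩
      · rintro (h1 | h1)
        · exact ⟨Or.inl h1, Or.inl h1⟩
        · exact ⟨Or.inr ⟨h1.1, fun h' => h1.2 (Or.inr h')⟩, Or.inr ⟨fun h' => h1.2 (Or.inl h'), h1.1⟩⟩
    have h3 := h.submod (insert p (B \ W)) (insert p (B.erase q))
    rw [e1, e2, hpB, h1, h2] at h3
    have i1 : r (B \ W) = (B \ W).card := ind_sub h hB sdiff_subset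
    have i2 : r (B.erase q) = (B.erase q).card := ind_sub h hB (erase_subset q B)
    have i3 : r (B \ insert q W) = (B \ insert q W).card := ind_sub h hB sdiff_subset
    have c1 := card_sdiff_add_card_eq_card hWB
    have c2 := card_sdiff_add_card_eq_card hW
    have c3 := card_erase_of_mem hqB
    have c4 : 0 < B.card := card_pos.2 ⟨q, hqB⟩
    rw [card_insert_of_notMem hqW] at c2
    have h4 := h.mono (B \ insert q W) (insert p (B \ insert q W)) (subset_insert _ _)
    omega

end Pool.Agent.WT59
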