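import Pool.Agent.WT59.St

/-!
The exchange lemma (T*) for three arbitrary matroids, relative to a tight set `F`.

`Z` has one element too many for the first slot.  `F ⊆ E` meets `E \ Z` in the disjoint union of a `k`-basis `B0` and a `q`-basis `C0` of
`F`, and outside `F` the set `E \ Z` is strictly sparse for the contractions `k / F`, `q / F`.  `X1`, `X2` are sets of tokens outside
`F`: for `x ∈ X1` all states with first block `Z - x` have the colour `c`, for `x ∈ X2` all of them have the other colour.  Then `X1` and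
`X2` are skew in `q / F`.
-/

set_option autoImplicit false

namespace Pool.Agent.WT59

open Finset Pool.Agent.DT3 Pool.Agent.CF98

variable {α : Type*} [DecidableEq α] {p k q : Finset α → ℕ} {E Y Z A B C F B0 C0 X1 X2 J : Finset α}
  {c : Finset α → Finset α → Finset α → Prop} {x : α}

private theorem ts_set (hZE : Z ⊆ E) (hxZ : x ∈ Z) (hBC : B0 ∪ C0 = (E \ Z) ∩ F) (hJ : J ⊆ (E \ Z) \ F) :
    Z.erase x ∪ ((((E \ Z) \ F) \ J) ∪ B0) ∪ insert x (J ∪ C0) = E := by
  ext y
  have h6 : y ∈ B0 ∨ y ∈ C0 ↔ (y ∈ E ∧ y ∉ Z) ∧ y ∈ F := by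
    rw [← mem_union, hBC, mem_inter, mem_sdiff]
  have h7 : y ∈ J → ((y ∈ E ∧ y ∉ Z) ∧ y ∉ F) := fun hy => by
    have := hJ hy
    rwa [mem_sdiff, mem_sdiff] at this
  simp only [mem_union, mem_erase, mem_sdiff, mem_insert, ne_eq]
  constructor
  · rintro ((h | h | h) | h | h | h)
    · exact hZE h.2
    · exact h.1.1.1
    · exact (h6.1 (Or.inl h)).1.1
    · exact h ▸ hZE hxZ
    · exact (h7 h).1.1
    · exact (h6.1 (Or.inr h)).1.1
  · intro hE
    by_cases hx : y = x
    · exact Or.inr (Or.inl hx)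
    · by_cases hz : y ∈ Z
      · exact Or.inl (Or.inl ⟨hx, hz⟩)
      · by_cases hF : y ∈ F
        · rcases h6.2 ⟨⟨hE, hz⟩, hF⟩ with h | h
          · exact Or.inl (Or.inr (Or.inr h))
          · exact Or.inr (Or.inr (Or.inr h))
        · by_cases hj : y ∈ J
          · exact Or.inr (Or.inr (Or.inl hj))
          · exact Or.inl (Or.inr (Or.inl ⟨⟨⟨hE, hz⟩, hF⟩, hj⟩))

private theorem ts_ar1 {e pe ke qe z ez y ef kf qf : ℕ} (hE : e = pe + ke + qe) (hZ : z = pe + 1) (hZc : ez + z = e)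
    (hYc : y + ef = ez) (hIc : ef = kf + qf) (hkF : kf ≤ ke) (hqF : qf ≤ qe) : y + 1 = (qe - qf) + (ke - kf) := by
  omega

private theorem ts_ar2 {c a b kf qf : ℕ} (h3 : c + 1 + kf + qf ≤ a + b) (h4 : kf ≤ a) (h5 : qf ≤ b) :
    c + 1 ≤ (b - qf) + (a - kf) := by
  omega

private theorem ts_ar3 {a b kf qf : ℕ} (h3 : 1 + 1 + kf + qf ≤ a + b) (h4 : a ≤ kf + 1) (_ : b ≤ qf + 1) :
    0 < b - qf := by
  omega

private theorem ts_ar4 {a b c : ℕ} (h : a - c = b - c) (h1 : c ≤ a) (h2 : c ≤ b) : a = b := by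
  omega

private theorem ts_ar5 {a b c e : ℕ} (h4 : a = b + 1) (hJ2 : b - c + 1 = e - c) (hJq : c ≤ b) : a = e := by
  omega

private theorem ts_ar6 {j c e : ℕ} (h : j + 1 = e - c) : j + 1 + c = e := by
  omega

private theorem ts_ar7 {a b c d : ℕ} (h : (a - c) + (b - c) = d - c) (h3 : c ≤ a) (h4 : c ≤ b) (h5 : c ≤ d) :
    a + b = d + c := by
  omega

/-- The state built from `Z`, `x`, `J`. -/
private theorem mkSt (hk : RankFn k) (hq : RankFn q)
    (hE : E.card = p E + k E + q E) (hZE : Z ⊆ E) (hZ : Z.card = p E + 1) (hFE : F ⊆ E)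
    (hBC : B0 ∪ C0 = (E \ Z) ∩ F) (hd : Disjoint B0 C0) (hB1 : B0.card = k F) (hB2 : k B0 = k F)
    (hC1 : C0.card = q F) (hC2 : q C0 = q F) (hxZ : x ∈ Z) (hpx : p (Z.erase x) = p E)
    (hJ : J ⊆ (E \ Z) \ F) (hJ1 : J.card + 1 + q F = q E)
    (hJ2 : q (insert x J ∪ F) = q E) (hJ3 : k (((E \ Z) \ F) \ J ∪ F) = k E) :
    St p k q E (Z.erase x) ((((E \ Z) \ F) \ J) ∪ B0) (insert x (J ∪ C0)) := by
  have hB0F : B0 ⊆ F := fun y hy => (mem_inter.1 (hBC ▸ mem_union_left _ hy : y ∈ (E \ Z) ∩ F)).2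
  have hC0F : C0 ⊆ F := fun y hy => (mem_inter.1 (hBC ▸ mem_union_right _ hy : y ∈ (E \ Z) ∩ F)).2
  have hB0E : B0 ⊆ E \ Z := fun y hy => (mem_inter.1 (hBC ▸ mem_union_left _ hy : y ∈ (E \ Z) ∩ F)).1
  have hC0E : C0 ⊆ E \ Z := fun y hy => (mem_inter.1 (hBC ▸ mem_union_right _ hy : y ∈ (E \ Z) ∩ F)).1
  have hJE : J ⊆ E \ Z := fun y hy => (mem_sdiff.1 (hJ hy)).1
  have hJF : ∀ y ∈ J, y ∉ F := fun y hy => (mem_sdiff.1 (hJ hy)).2
  -- counts
  have h1 := card_sdiff_add_card_eq_card hZE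
  have h2 : ((E \ Z) \ F).card + ((E \ Z) ∩ F).card = (E \ Z).card := card_sdiff_add_card_inter _ _
  have h3 : ((E \ Z) ∩ F).card = k F + q F := by
    rw [← hBC, card_union_of_disjoint hd, hB1, hC1]
  have h4 := card_sdiff_add_card_eq_card hJ
  have hkF := hk.mono F E hFE
  have hqF := hq.mono F E hFE
  have dB : Disjoint (((E \ Z) \ F) \ J) B0 := by
    rw [disjoint_left]
    intro y hy hy'
    exact (mem_sdiff.1 (mem_sdiff.1 hy).1).2 (hB0F hy')
  have dC : Disjoint J C0 := by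
    rw [disjoint_left]
    intro y hy hy'
    exact hJF y hy (hC0F hy')
  have hxC : x ∉ J ∪ C0 := by
    intro hx
    rcases mem_union.1 hx with hx | hx
    · exact (mem_sdiff.1 (hJE hx)).2 hxZ
    · exact (mem_sdiff.1 (hC0E hx)).2 hxZ
  have hBZ : ((((E \ Z) \ F) \ J) ∪ B0) ⊆ E \ Z := by
    intro y hy
    rcases mem_union.1 hy with hy | hy
    · exact (mem_sdiff.1 (mem_sdiff.1 hy).1).1
    · exact hB0E hy
  have hCZ : J ∪ C0 ⊆ E \ Z := union_subset hJE hC0E
  refine ⟨?_, hpx, ?_, ?_, ?_, ?_, ?_, ?_, ?_, ?_⟩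
  · rw [card_erase_of_mem hxZ]; omega
  · rw [card_union_of_disjoint dB]; omega
  · have h5 := rk_cup_congr hk hB0F hB2 (((E \ Z) \ F) \ J)
    rw [union_comm, h5, union_comm, hJ3]
  · rw [card_insert_of_notMem hxC, card_union_of_disjoint dC]; omega
  · have h5 := rk_cup_congr hq hC0F hC2 (insert x J)
    rw [show insert x (J ∪ C0) = C0 ∪ insert x J by rw [union_insert, union_comm C0 J], h5, union_comm, hJ2]
  · rw [disjoint_left]
    intro y hy hy'
    exact (mem_sdiff.1 (hBZ hy')).2 (mem_of_mem_erase hy)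
  · rw [disjoint_left]
    intro y hy hy'
    rcases mem_insert.1 hy' with hy' | hy'
    · exact (mem_erase.1 hy).1 hy'
    · exact (mem_sdiff.1 (hCZ hy')).2 (mem_of_mem_erase hy)
  · rw [disjoint_left]
    intro y hy hy'
    rcases mem_insert.1 hy' with hy' | hy'
    · subst hy'
      exact (mem_sdiff.1 (hBZ hy)).2 hxZ
    · rcases mem_union.1 hy with hy | hy <;> rcases mem_union.1 hy' with hy' | hy'
      · exact (mem_sdiff.1 hy).2 hy'
      · exact (mem_sdiff.1 (mem_sdiff.1 hy).1).2 (hC0F hy')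
      · exact hJF y hy' (hB0F hy)
      · exact disjoint_left.1 hd hy hy'
  · exact ts_set hZE hxZ hBC hJ

theorem tstar (hk : RankFn k) (hq : RankFn q) (hc : Cls p k q E c)
    (hE : E.card = p E + k E + q E) (hZE : Z ⊆ E) (hZ : Z.card = p E + 1) (hFE : F ⊆ E)
    (hBC : B0 ∪ C0 = (E \ Z) ∩ F) (hd : Disjoint B0 C0) (hB1 : B0.card = k F) (hB2 : k B0 = k F)
    (hC1 : C0.card = q F) (hC2 : q C0 = q F)
    (hs : ∀ X ⊆ (E \ Z) \ F, X.Nonempty → X.card + 1 + k F + q F ≤ k (X ∪ F) + q (X ∪ F))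
    (hX1 : X1 ⊆ Z) (hX2 : X2 ⊆ Z) (hl : ∀ x ∈ X1 ∪ X2, q (insert x F) ≠ q F)
    (h1 : ∀ x ∈ X1, p (Z.erase x) = p E ∧ ∀ B C, St p k q E (Z.erase x) B C → c (Z.erase x) B C)
    (h2 : ∀ x ∈ X2, p (Z.erase x) = p E ∧ ∀ B C, St p k q E (Z.erase x) B C → ¬ c (Z.erase x) B C) :
    q (F ∪ X1) + q (F ∪ X2) = q (F ∪ (X1 ∪ X2)) + q F := by
  rcases X1.eq_empty_or_nonempty with hX10 | ⟨x1, hx1⟩
  · subst hX10
    rw [union_empty, empty_union]; omega
  rcases X2.eq_empty_or_nonempty with hX20 | ⟨x2, hx2⟩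
  · subst hX20
    rw [union_empty, union_empty]
  set Y : Finset α := (E \ Z) \ F with hYd
  have hk' := contr_rank hk F
  have hq' := contr_rank hq F
  have hkF := hk.mono F E hFE
  have hqF := hq.mono F E hFE
  have hYE : Y ⊆ E := fun y hy => (mem_sdiff.1 (mem_sdiff.1 hy).1).1
  have hZc := card_sdiff_add_card_eq_card hZE
  have hYc : Y.card + ((E \ Z) ∩ F).card = (E \ Z).card := card_sdiff_add_card_inter _ _
  have hIc : ((E \ Z) ∩ F).card = k F + q F := by
    rw [← hBC, card_union_of_disjoint hd, hB1, hC1]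
  have hkm : ∀ X ⊆ E, k (X ∪ F) ≤ k E := fun X hX => hk.mono _ _ (union_subset hX hFE)
  have hqm : ∀ X ⊆ E, q (X ∪ F) ≤ q E := fun X hX => hq.mono _ _ (union_subset hX hFE)
  have hkM : ∀ X : Finset α, k F ≤ k (X ∪ F) := fun X => hk.mono _ _ subset_union_right
  have hqM : ∀ X : Finset α, q F ≤ q (X ∪ F) := fun X => hq.mono _ _ subset_union_right
  have hli : ∀ x ∈ X1 ∪ X2, q (insert x F) = q F + 1 := fun x hx => rk_ins_ne hq (hl x hx)
  have hxE : ∀ x ∈ X1 ∪ X2, x ∈ E := by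
    intro x hx
    rcases mem_union.1 hx with hx | hx
    · exact hZE (hX1 hx)
    · exact hZE (hX2 hx)
  have hf1 : q F + 1 ≤ q E := by
    have h3 := hli x1 (mem_union_left _ hx1)
    have h4 := hq.mono (insert x1 F) E (insert_subset (hxE x1 (mem_union_left _ hx1)) hFE)
    omega
  have hins : ∀ (x : α) (X : Finset α), insert x X ∪ F = insert x (X ∪ F) := fun x X => insert_union x X F
  have hYfull : k (Y ∪ F) = k E ∧ (Y.Nonempty → q (Y ∪ F) = q E) ∧ (Y = ∅ → q E = q F + 1) := by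
    rcases Y.eq_empty_or_nonempty with hY0 | hYn
    · rw [hY0, card_empty] at hYc
      refine ⟨?_, ?_, ?_⟩
      · rw [hY0, empty_union]; omega
      · rw [hY0]; intro h; exact absurd h not_nonempty_empty
      · intro _; omega
    · have h3 := hs Y (Subset.refl _) hYn
      have h4 := hkm Y hYE
      have h5 := hqm Y hYE
      refine ⟨by omega, fun _ => by omega, fun h => ?_⟩
      rw [h] at hYn
      exact absurd hYn not_nonempty_empty
  obtain ⟨hYk, hYq, hY0⟩ := hYfull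
  have hmain := skewK (r := fun X => q (X ∪ F) - q F) (k := fun X => k (X ∪ F) - k F) (Y := Y) (X1 := X1)
    (X2 := X2) (f := q E - q F) (g := k E - k F) hq' hk' (ts_ar1 hE hZ hZc hYc hIc hkF hqF) (by
      show k (Y ∪ F) - k F = k E - k F
      rw [hYk]) (by
      intro X hX hXn
      show X.card + 1 ≤ (q (X ∪ F) - q F) + (k (X ∪ F) - k F)
      have h3 := hs X hX hXn
      exact ts_ar2 h3 (hkM X) (hqM X)) (by
      intro x hx
      show 0 < q ({x} ∪ F) - q F
      rw [← insert_eq, hli x hx, Nat.add_sub_cancel_left]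
      exact Nat.one_pos) (by
      intro x hx
      show q (insert x Y ∪ F) - q F = q E - q F
      rcases Y.eq_empty_or_nonempty with hYe | hYn
      · have h3 := hY0 hYe
        rw [hYe, empty_union] at hx
        have h4 := hli x hx
        rw [hYe, insert_empty_eq, ← insert_eq, h4, h3]
      · have h3 := hYq hYn
        have h4 : insert x Y ⊆ E := by
          refine insert_subset ?_ hYE
          rcases mem_union.1 hx with hx | hx
          · exact hYE hx
          · exact hxE x hx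
        have h5 := hqm _ h4
        have h6 := hq.mono (Y ∪ F) (insert x Y ∪ F) (union_subset_union (subset_insert _ _) (Subset.refl _))
        rw [h3] at h6
        rw [le_antisymm h5 h6]) (by
      show q (Y ∪ (X1 ∪ X2) ∪ F) - q F = q E - q F
      have h4 : Y ∪ (X1 ∪ X2) ⊆ E := union_subset hYE hxE
      have h5 := hqm _ h4
      rcases Y.eq_empty_or_nonempty with hYe | hYn
      · have h3 := hY0 hYe
        have h6 := hli x1 (mem_union_left _ hx1)
        have h7 := hq.mono (insert x1 F) (Y ∪ (X1 ∪ X2) ∪ F) (by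
          refine insert_subset ?_ subset_union_right
          exact mem_union_left _ (mem_union_right _ (mem_union_left _ hx1)))
        rw [h6, ← h3] at h7
        rw [le_antisymm h5 h7]
      · have h3 := hYq hYn
        have h6 := hq.mono (Y ∪ F) (Y ∪ (X1 ∪ X2) ∪ F) (union_subset_union subset_union_left (Subset.refl _))
        rw [h3] at h6
        rw [le_antisymm h5 h6]) (Nat.le_sub_of_add_le (by rw [Nat.add_comm]; exact hf1)) (by
      intro x hx
      show 0 < q ({x} ∪ F) - q F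
      have h3 := hs {x} (singleton_subset_iff.2 hx) (singleton_nonempty x)
      rw [card_singleton] at h3
      have h4 := hk.insert_le x F
      have h5 := hq.insert_le x F
      rw [← insert_eq] at h3 ⊢
      exact ts_ar3 h3 h4 h5) (by
      intro J hJ hJ1 hJ2 hJ3
      change q (J ∪ F) - q F + 1 = q E - q F at hJ2
      change k ((Y \ J) ∪ F) - k F = k E - k F at hJ3
      show (∀ x ∈ X1, q (insert x J ∪ F) - q F = q (J ∪ F) - q F) ∨
        (∀ x ∈ X2, q (insert x J ∪ F) - q F = q (J ∪ F) - q F)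
      by_contra hcon
      simp only [not_or, not_forall] at hcon
      obtain ⟨⟨y1, hy1, hn1⟩, ⟨y2, hy2, hn2⟩⟩ := hcon
      have hJq := hqM J
      have hkk : k ((Y \ J) ∪ F) = k E := ts_ar4 hJ3 (hkM (Y \ J)) hkF
      have key : ∀ y : α, q (insert y J ∪ F) - q F ≠ q (J ∪ F) - q F → q (insert y J ∪ F) = q E := by
        intro y hy
        have h3 : q (insert y (J ∪ F)) ≠ q (J ∪ F) := by
          rw [← hins]
          intro h; exact hy (by rw [h])
        have h4 := rk_ins_ne hq h3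
        rw [hins]
        exact ts_ar5 h4 hJ2 hJq
      have e1 := mkSt hk hq hE hZE hZ hFE hBC hd hB1 hB2 hC1 hC2 (hX1 hy1) (h1 y1 hy1).1 hJ (ts_ar6 hJ1)
        (key y1 hn1) hkk
      have e2 := mkSt hk hq hE hZE hZ hFE hBC hd hB1 hB2 hC1 hC2 (hX2 hy2) (h2 y2 hy2).1 hJ (ts_ar6 hJ1)
        (key y2 hn2) hkk
      have h5 := (h1 y1 hy1).2 _ _ e1
      have h6 := (h2 y2 hy2).2 _ _ e2
      -- they share the second block
      exact h6 ((hc.sb _ _ _ _ _ e1 e2).1 h5))
  change (q (X1 ∪ F) - q F) + (q (X2 ∪ F) - q F) = q (X1 ∪ X2 ∪ F) - q F at hmain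
  have h3 := hqM X1
  have h4 := hqM X2
  have h5 := hqM (X1 ∪ X2)
  rw [union_comm F X1, union_comm F X2, union_comm F (X1 ∪ X2)]
  exact ts_ar7 hmain h3 h4 h5

end Pool.Agent.WT59
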