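import Pool.Agent.WT59.DisjB
import Pool.Agent.WT59.Tstar

/-!
(T*) for one matroid, in the form used by the closure arguments.

* `TG r E b x G` : `G` is the largest tight set of the good basis `b` which does not contain `x`.
* `exTG` : existence for `x ∈ E \ b`.
* `tok_gd` : `b - h + x` is good for `h ∈ b \ G` if it is a basis.
* `tst` : `x` is in the closure of `G` together with all `h ∈ b` such that `b - h + x` is a good basis of the class of `b`.
-/

set_option autoImplicit false

namespace Pool.Agent.WT59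

open Finset Pool.Agent.DT3 Pool.Agent.CF98

variable {α : Type*} [DecidableEq α] {r : Finset α → ℕ} {E b G X : Finset α} {f : ℕ} {x h : α}
  {Q : Finset α → Prop}

/-- `G` is the largest tight set for `b` without `x`. -/
structure TG (r : Finset α → ℕ) (E b : Finset α) (x : α) (G : Finset α) : Prop where
  sub : G ⊆ E
  ti : sg r b G = 0
  nin : x ∉ G
  max : ∀ X ⊆ E, sg r b X = 0 → x ∉ X → X ⊆ G

theorem exTG (hE : Env r E f) (hb : Gd r E f b) (x : α) : ∃ G, TG r E b x G := by
  classical
  have hs := sg_sub hE.rk b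
  have hn := sg_nonneg hE.rk hb.2.2
  have hne : (E.powerset.filter fun X => sg r b X = 0 ∧ x ∉ X).Nonempty :=
    ⟨∅, by rw [mem_filter]; exact ⟨empty_mem_powerset E, sg_empty hE.rk b, notMem_empty x⟩⟩
  obtain ⟨G, hG, hm⟩ := exists_max_image _ card hne
  rw [mem_filter, mem_powerset] at hG
  refine ⟨G, hG.1, hG.2.1, hG.2.2, fun X hX h0 hx => ?_⟩
  have h1 := hs G X
  have h2 := hn (G ∪ X) (union_subset hG.1 hX)
  have h3 := hn (G ∩ X) (inter_subset_left.trans hG.1)
  have h4 : sg r b (G ∪ X) = 0 := by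
    rw [hG.2.1, h0] at h1
    omega
  have h5 := hm (G ∪ X) (by
    rw [mem_filter, mem_powerset]
    refine ⟨union_subset hG.1 hX, h4, ?_⟩
    rw [mem_union]
    rintro (h6 | h6)
    · exact hG.2.2 h6
    · exact hx h6)
  have h6 : G = G ∪ X := eq_of_subset_of_card_le subset_union_left h5
  rw [h6]
  exact subset_union_right

theorem TG.nx (hE : Env r E f) (hb : Gd r E f b) (hx : x ∈ E \ b) (hG : TG r E b x G) :
    r (insert x G) ≠ r G := by
  intro h0
  have hx' := mem_sdiff.1 hx
  have h1 := sg_nonneg hE.rk hb.2.2 (insert x G) (insert_subset hx'.1 hG.sub)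
  have h2 := hG.ti
  unfold sg at h1 h2
  have e1 : insert x G \ b = insert x (G \ b) := insert_sdiff_of_notMem G hx'.2
  rw [e1, card_insert_of_notMem (fun h => hG.nin (mem_sdiff.1 h).1), h0] at h1
  push_cast at h1
  omega

theorem TG.nh (hE : Env r E f) (hb : Gd r E f b) (hx : x ∈ E \ b) (hG : TG r E b x G)
    (hh : h ∈ b) (hhG : h ∉ G) : r (insert h G) ≠ r G := by
  intro h0
  have hx' := mem_sdiff.1 hx
  have h2 := hG.ti
  have h3 : sg r b (insert h G) = 0 := by
    unfold sg at h2 ⊢
    have e1 : insert h G \ b = G \ b := insert_sdiff_of_mem G hh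
    rw [e1, h0]
    exact h2
  have h4 := hG.max (insert h G) (insert_subset (hb.1 hh) hG.sub) h3 (by
    rw [mem_insert]
    rintro (h5 | h5)
    · exact hx'.2 (h5 ▸ hh)
    · exact hG.nin h5)
  exact hhG (h4 (mem_insert_self h G))

theorem tok_gd (hE : Env r E f) (hb : Gd r E f b) (hx : x ∈ E \ b) (hG : TG r E b x G)
    (hh : h ∈ b) (hhG : h ∉ G) (hr : r (insert x (b.erase h)) = f) :
    Gd r E f (insert x (b.erase h)) := by
  have hx' := mem_sdiff.1 hx
  have hbc := hb.2.1.1
  have hpos : 0 < b.card := card_pos.2 ⟨h, hh⟩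
  refine ⟨insert_subset hx'.1 ((erase_subset h b).trans hb.1), ⟨?_, hr⟩, two_of_sg ?_⟩
  · rw [card_insert_of_notMem (fun h1 => hx'.2 (mem_erase.1 h1).2), card_erase_of_mem hh]
    omega
  · intro X hX
    have h1 := sg_nonneg hE.rk hb.2.2 X hX
    by_cases hxX : x ∈ X
    · -- the complement loses at least as much as it gains
      have h2 : (X \ insert x (b.erase h)).card ≤ (X \ b).card := by
        have e1 : X \ insert x (b.erase h) ⊆ insert h ((X \ b).erase x) := by
          intro y hy
          rw [mem_sdiff, mem_insert, mem_erase] at hy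
          rw [mem_insert, mem_erase, mem_sdiff]
          by_cases hyh : y = h
          · exact Or.inl hyh
          · refine Or.inr ⟨fun h3 => hy.2 (Or.inl h3), hy.1, fun h3 => hy.2 (Or.inr ⟨hyh, h3⟩)⟩
        have h3 := card_le_card e1
        have h4 := card_insert_le h ((X \ b).erase x)
        have h5 : x ∈ X \ b := mem_sdiff.2 ⟨hxX, hx'.2⟩
        rw [card_erase_of_mem h5] at h4
        have h6 : 0 < (X \ b).card := card_pos.2 ⟨x, h5⟩
        omega
      unfold sg at h1 ⊢
      omega
    · by_cases hhX : h ∈ X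
      · have h2 : sg r b X ≠ 0 := fun h0 => hhG (hG.max X hX h0 hxX hhX)
        have h3 : (X \ insert x (b.erase h)).card ≤ (X \ b).card + 1 := by
          have e1 : X \ insert x (b.erase h) ⊆ insert h (X \ b) := by
            intro y hy
            rw [mem_sdiff, mem_insert, mem_erase] at hy
            rw [mem_insert, mem_sdiff]
            by_cases hyh : y = h
            · exact Or.inl hyh
            · exact Or.inr ⟨hy.1, fun h3 => hy.2 (Or.inr ⟨hyh, h3⟩)⟩
          exact (card_le_card e1).trans (card_insert_le h (X \ b))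
        unfold sg at h1 h2 ⊢
        omega
      · have h3 : (X \ insert x (b.erase h)).card ≤ (X \ b).card := by
          refine card_le_card ?_
          intro y hy
          rw [mem_sdiff, mem_insert, mem_erase] at hy
          rw [mem_sdiff]
          refine ⟨hy.1, fun h3 => hy.2 (Or.inr ⟨?_, h3⟩)⟩
          rintro rfl
          exact hhX hy.1
        unfold sg at h1 ⊢
        omega

private theorem One_cls (hE : Env r E f) (hQ : ∀ A A', Stp r E f A A' → Q A → Q A') :
    Cls r r r E (fun A _ _ => Q A) := by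
  have key : ∀ A B C A' B' C' : Finset α, St r r r E A B C → St r r r E A' B' C' →
      (∃ D ⊆ E, Disjoint A D ∧ Disjoint A' D ∧ Bs r f D ∧ Bs r f (E \ (A ∪ D)) ∧
        Bs r f (E \ (A' ∪ D))) → (Q A ↔ Q A') := by
    intro A B C A' B' C' h1 h2 ⟨D, hD, d1, d2, d3, d4, d5⟩
    have hs : Stp r E f A A' := ⟨h1.subA, h2.subA, ⟨h1.ca.trans hE.rank, h1.ra.trans hE.rank⟩,
      ⟨h2.ca.trans hE.rank, h2.ra.trans hE.rank⟩, D, hD, d1, d2, d3, d4, d5⟩
    exact ⟨hQ _ _ hs, hQ _ _ (stp_symm hs)⟩
  have eC : ∀ A B C : Finset α, St r r r E A B C → E \ (A ∪ B) = C := by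
    intro A B C h
    rw [← h.un]
    ext x
    simp only [mem_sdiff, mem_union]
    have h1 : x ∈ A → x ∉ C := fun h1 h2 => disjoint_left.1 h.dac h1 h2
    have h2 : x ∈ B → x ∉ C := fun h1 h2 => disjoint_left.1 h.dbc h1 h2
    tauto
  refine ⟨fun _ _ _ _ _ _ _ => Iff.rfl, ?_, ?_⟩
  · intro A B C A' C' h1 h2
    refine key A B C A' B C' h1 h2 ⟨B, h1.subB, h1.dab, h2.dab, ⟨h1.cb.trans hE.rank,
      h1.rb.trans hE.rank⟩, ?_, ?_⟩
    · rw [eC A B C h1]; exact ⟨h1.cc.trans hE.rank, h1.rc.trans hE.rank⟩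
    · rw [eC A' B C' h2]; exact ⟨h2.cc.trans hE.rank, h2.rc.trans hE.rank⟩
  · intro A B C A' B' h1 h2
    have h1' := h1.swap23
    have h2' := h2.swap23
    refine key A B C A' B' C h1 h2 ⟨C, h1.subC, h1.dac, h2.dac, ⟨h1.cc.trans hE.rank,
      h1.rc.trans hE.rank⟩, ?_, ?_⟩
    · rw [eC A C B h1']; exact ⟨h1.cb.trans hE.rank, h1.rb.trans hE.rank⟩
    · rw [eC A' C B' h2']; exact ⟨h2.cb.trans hE.rank, h2.rb.trans hE.rank⟩

private theorem One_main (hE : Env r E f) (hQ : ∀ A A', Stp r E f A A' → Q A → Q A')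
    (hb : Gd r E f b) (hqb : Q b) (hx : x ∈ E \ b) (hG : TG r E b x G) {K : Finset α}
    (hK : ∀ y, y ∈ K ↔ y ∈ b ∧ y ∉ G ∧ r (insert x (b.erase y)) = f ∧ Q (insert x (b.erase y))) :
    r (insert x (G ∪ K)) = r (G ∪ K) := by
  classical
  have hr := hE.rk
  have hx' := mem_sdiff.1 hx
  have hbE := hb.1
  have hbc := hb.2.1.1
  have hrb : r b = b.card := by rw [hb.2.1.2, hb.2.1.1]
  have hrE : ∀ X ⊆ E, r X ≤ f := fun X hX => by
    have := hr.mono X E hX
    rwa [hE.rank] at this
  set X2 : Finset α := b.filter fun y => y ∉ G ∧ r (insert x (b.erase y)) = f ∧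
    ¬ Q (insert x (b.erase y)) with hX2
  have hKb : K ⊆ b := fun y hy => ((hK y).1 hy).1
  have hX2b : X2 ⊆ b := filter_subset _ _
  -- the splitting of `G`
  obtain ⟨C1, hC1E, hd1, hB1, hB2⟩ := gd_parts hE hb
  set C2 := E \ (b ∪ C1) with hC2
  have hGb : (G \ b).card = 2 * r G := by
    have := hG.ti
    unfold sg at this
    omega
  have i1 : r (C1 ∩ G) = (C1 ∩ G).card := ind_sub hr (by rw [hB1.1, hB1.2]) inter_subset_left
  have i2 : r (C2 ∩ G) = (C2 ∩ G).card := ind_sub hr (by rw [hB2.1, hB2.2]) inter_subset_left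
  have m1 := hr.mono (C1 ∩ G) G inter_subset_right
  have m2 := hr.mono (C2 ∩ G) G inter_subset_right
  have hCd : Disjoint C1 C2 := by
    rw [Finset.disjoint_left]
    intro y hy hy'
    exact (mem_sdiff.1 hy').2 (mem_union_right _ hy)
  have e1 : C1 ∩ G ∪ C2 ∩ G = (E \ insert x b) ∩ G := by
    ext y
    simp only [mem_union, mem_inter, mem_sdiff, mem_insert, hC2]
    have h1 : y ∈ C1 → y ∈ E := fun h => hC1E h
    have h2 : y ∈ C1 → y ∉ b := fun h h' => disjoint_left.1 hd1 h' h
    have h3 : y ∈ G → y ≠ x := fun h h' => hG.nin (h' ▸ h)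
    tauto
  have e2 : C1 ∩ G ∪ C2 ∩ G = G \ b := by
    rw [e1]
    ext y
    simp only [mem_inter, mem_sdiff, mem_insert]
    have h3 : y ∈ G → y ≠ x := fun h h' => hG.nin (h' ▸ h)
    have h4 : y ∈ G → y ∈ E := fun h => hG.sub h
    tauto
  have d1 : Disjoint (C1 ∩ G) (C2 ∩ G) := hCd.mono inter_subset_left inter_subset_left
  have c1 := card_union_of_disjoint d1
  rw [e2, hGb] at c1
  have hZE : insert x b ⊆ E := insert_subset hx'.1 hbE
  have hZc : (insert x b).card = r E + 1 := by
    rw [card_insert_of_notMem hx'.2, hbc, hE.rank]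
  have hxK : x ∉ K := fun h => hx'.2 (hKb h)
  have her : ∀ y ∈ b, (insert x b).erase y = insert x (b.erase y) := by
    intro y hy
    rw [erase_insert_of_ne]
    rintro rfl
    exact hx'.2 hy
  have hst := tstar (p := r) (k := r) (q := r) (E := E) (Z := insert x b) (F := G)
    (B0 := C1 ∩ G) (C0 := C2 ∩ G) (X1 := insert x K) (X2 := X2) (c := fun A _ _ => Q A)
    hr hr (One_cls hE hQ) (by rw [hE.rank, hE.card]; omega) hZE hZc hG.sub e1 d1 (by omega)
    (by omega) (by omega) (by omega) ?_ ?_ ?_ ?_ ?_ ?_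
  · -- conclusion
    have hC : r (insert x (G ∪ K ∪ X2)) = r (G ∪ K ∪ X2) := by
      set C := b.filter fun y => r (insert x (b.erase y)) = f with hCdef
      have h1 : r (insert x (b \ (b \ C))) = r (b \ (b \ C)) := by
        refine ins_inter hr hrb hx'.2 sdiff_subset ?_ ?_
        · have h3 := hr.mono b (insert x b) (subset_insert x b)
          have h4 := hrE (insert x b) hZE
          have h5 := hb.2.1.2
          omega
        · intro y hy
          have hy' := mem_sdiff.1 hy
          have h3 : r (insert x (b.erase y)) ≠ f := fun h => hy'.2 (mem_filter.2 ⟨hy'.1, h⟩)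
          have h4 := hr.mono (b.erase y) (insert x (b.erase y)) (subset_insert _ _)
          have h5 := hrE (insert x (b.erase y))
            (insert_subset hx'.1 ((erase_subset _ _).trans hbE))
          have h6 : r (b.erase y) = (b.erase y).card := ind_sub hr hrb (erase_subset _ _)
          have h7 := card_erase_of_mem hy'.1
          omega
      refine RankFn.mono_insert hr h1 ?_
      intro y hy
      have hy1 := mem_sdiff.1 hy
      have hyC : y ∈ C := by
        by_contra h
        exact hy1.2 (mem_sdiff.2 ⟨hy1.1, h⟩)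
      have hy2 := (mem_filter.1 hyC).2
      by_cases hyG : y ∈ G
      · exact mem_union_left _ (mem_union_left _ hyG)
      · by_cases hyQ : Q (insert x (b.erase y))
        · exact mem_union_left _ (mem_union_right _ ((hK y).2 ⟨hy1.1, hyG, hy2, hyQ⟩))
        · exact mem_union_right _ (mem_filter.2 ⟨hy1.1, hyG, hy2, hyQ⟩)
    have e3 : G ∪ (insert x K ∪ X2) = insert x (G ∪ K ∪ X2) := by
      ext y
      simp only [mem_union, mem_insert]
      tauto
    have e4 : G ∪ insert x K = insert x (G ∪ K) := by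
      ext y
      simp only [mem_union, mem_insert]
      tauto
    rw [e3, hC, e4] at hst
    have h5 := hr.submod (G ∪ K) (G ∪ X2)
    have e5 : G ∪ K ∪ (G ∪ X2) = G ∪ K ∪ X2 := by
      ext y
      simp only [mem_union]
      tauto
    rw [e5] at h5
    have h6 := hr.mono G ((G ∪ K) ∩ (G ∪ X2)) (subset_inter subset_union_left subset_union_left)
    have h7 := hr.mono (G ∪ K) (insert x (G ∪ K)) (subset_insert _ _)
    omega
  · -- strictness outside `G`
    intro X hX hXne
    have hXE : X ⊆ E := fun y hy => (mem_sdiff.1 (mem_sdiff.1 (hX hy)).1).1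
    have hXG : Disjoint X G := by
      rw [Finset.disjoint_left]
      intro y hy
      exact (mem_sdiff.1 (hX hy)).2
    have hXb : Disjoint X b := by
      rw [Finset.disjoint_left]
      intro y hy hy'
      exact (mem_sdiff.1 (mem_sdiff.1 (hX hy)).1).2 (mem_insert_of_mem hy')
    have hxX : x ∉ X := fun h => (mem_sdiff.1 (mem_sdiff.1 (hX h)).1).2 (mem_insert_self x b)
    have h1 := sg_nonneg hE.rk hb.2.2 (X ∪ G) (union_subset hXE hG.sub)
    have h2 : sg r b (X ∪ G) ≠ 0 := by
      intro h0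
      have h3 := hG.max (X ∪ G) (union_subset hXE hG.sub) h0 (by
        rw [mem_union]
        rintro (h4 | h4)
        · exact hxX h4
        · exact hG.nin h4)
      obtain ⟨y, hy⟩ := hXne
      exact disjoint_left.1 hXG hy (h3 (mem_union_left _ hy))
    have e3 : (X ∪ G) \ b = X ∪ G \ b := by
      rw [union_sdiff_distrib, (Finset.sdiff_eq_self_iff_disjoint).2 hXb]
    have d3 : Disjoint X (G \ b) := disjoint_of_subset_right sdiff_subset hXG
    have c3 := card_union_of_disjoint d3
    unfold sg at h1 h2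
    rw [e3, c3, hGb] at h1 h2
    push_cast at h1 h2
    omega
  · exact insert_subset (mem_insert_self x b) (hKb.trans (subset_insert x b))
  · exact hX2b.trans (subset_insert x b)
  · intro y hy
    rw [mem_union, mem_insert] at hy
    rcases hy with (rfl | hy) | hy
    · exact TG.nx hE hb hx hG
    · exact TG.nh hE hb hx hG (hKb hy) ((hK y).1 hy).2.1
    · exact TG.nh hE hb hx hG (hX2b hy) (mem_filter.1 hy).2.1
  · intro y hy
    rw [hE.rank]
    rcases mem_insert.1 hy with rfl | hy
    · rw [erase_insert hx'.2]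
      exact ⟨hb.2.1.2, fun _ _ _ => hqb⟩
    · have h3 := (hK y).1 hy
      rw [her y h3.1]
      exact ⟨h3.2.2.1, fun _ _ _ => h3.2.2.2⟩
  · intro y hy
    rw [hE.rank]
    have h3 := mem_filter.1 hy
    rw [her y h3.1]
    exact ⟨h3.2.2.1, fun _ _ _ => h3.2.2.2⟩

/-- (T*) for one matroid. -/
theorem tst (hE : Env r E f) (hQ : ∀ A A', Stp r E f A A' → Q A → Q A')
    (hb : Gd r E f b) (hx : x ∈ E \ b) (hG : TG r E b x G) {K : Finset α}
    (hK : ∀ y, y ∈ K ↔ y ∈ b ∧ y ∉ G ∧ r (insert x (b.erase y)) = f ∧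
      (Q b ↔ Q (insert x (b.erase y)))) :
    r (insert x (G ∪ K)) = r (G ∪ K) := by
  by_cases hqb : Q b
  · refine One_main hE hQ hb hqb hx hG ?_
    intro y
    rw [hK y]
    tauto
  · refine One_main (Q := fun A => ¬ Q A) hE
      (fun A A' h1 h2 h3 => h2 (hQ A' A (stp_symm h1) h3)) hb hqb hx hG ?_
    intro y
    rw [hK y]
    tauto

end Pool.Agent.WT59
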