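import Pool.Agent.CF98.Gen

/-!
The final assembly: if in every strict system of three blocks all good bases are in one class (`SW`), then the toric ideal of every
finite matroid of positive rank is generated by quadrics.

* `fibreW`: the fibre theorem from `SW` (splitting at tight sets, as in `CF98.fibre`).
* `connW`: any two triples of bases with the same content are connected by `ShareStep`.
* `quadsW`: the toric ideal is generated by its elements of degree two.
-/

set_option autoImplicit false

namespace Pool.Agent.WT59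

open Finset Pool.Agent.DT3 Pool.Agent.CF98 Pool.Agent.WD Pool.Agent.H94 MvPolynomial

/-- In every strict system of three blocks all good bases are in one class. -/
def SW (α : Type*) [DecidableEq α] : Prop :=
  ∀ (E : Finset α) (r : Finset α → ℕ) (f : ℕ) (Q : Finset α → Prop) (A B : Finset α),
    Env r E f → Strict r E → (∀ A A', Stp r E f A A' → Q A → Q A') →
    Gd r E f A → Gd r E f B → Q A → Q B

section

variable {α : Type*} [DecidableEq α]

theorem fibreW (h : SW α) (n : ℕ) : ∀ (E : Finset α) (r : Finset α → ℕ) (f : ℕ)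
    (Q : Finset α → Prop) (A B : Finset α), E.card ≤ n → Env r E f →
    (∀ A A', Stp r E f A A' → Q A → Q A') → Gd r E f A → Gd r E f B → Q A → Q B := by
  induction n with
  | zero =>
    intro E r f Q A B hn hE hQ hA hB hQA
    have hE0 : E = ∅ := by
      rw [← card_eq_zero]
      omega
    have hA0 : A = ∅ := subset_empty.1 (hE0 ▸ hA.1)
    have hB0 : B = ∅ := subset_empty.1 (hE0 ▸ hB.1)
    rw [hB0, ← hA0]
    exact hQA
  | succ n ih =>
    intro E r f Q A B hn hE hQ hA hB hQA
    by_cases hs : Strict r E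
    · exact h E r f Q A B hE hs hQ hA hB hQA
    · unfold Strict at hs
      push Not at hs
      obtain ⟨X, hX, hne, hXE, hlt⟩ := hs
      have ht : X.card = 3 * r X := by
        have := hE.three X hX
        omega
      have hXc : X.card < E.card := card_lt_card (hX.ssubset_of_ne hXE)
      have hXp : 0 < X.card := hne.card_pos
      have hdc : (E \ X).card < E.card := by
        rw [card_sdiff_of_subset hX]
        omega
      have hA1 := gd_res hE hX ht hA
      have hA2 := gd_con hE hX ht hA
      have hB1 := gd_res hE hX ht hB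
      have hB2 := gd_con hE hX ht hB
      have hAu : A ∩ X ∪ A \ X = A := by
        rw [union_comm]
        exact sdiff_union_inter A X
      have hBu : B ∩ X ∪ B \ X = B := by
        rw [union_comm]
        exact sdiff_union_inter B X
      have h1 : Q (B ∩ X ∪ A \ X) := by
        refine ih X r (r X) (fun S => Q (S ∪ A \ X)) (A ∩ X) (B ∩ X) (by omega)
          (env_res hE hX ht) ?_ hA1 hB1 ?_
        · intro S S' hS hq
          exact hQ _ _ (stp_glue_left hE hX ht hS hA2) hq
        · show Q (A ∩ X ∪ A \ X)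
          rw [hAu]
          exact hQA
      have h2 : Q (B ∩ X ∪ B \ X) := by
        refine ih (E \ X) (fun Y => r (Y ∪ X) - r X) (f - r X) (fun S => Q (B ∩ X ∪ S))
          (A \ X) (B \ X) (by omega) (env_con hE hX ht) ?_ hA2 hB2 h1
        intro S S' hS hq
        exact hQ _ _ (stp_glue_right hE hX ht hB1 hS) hq
      rw [hBu] at h2
      exact h2

theorem liftW {M : Matroid α} {f : ℕ} (h : SW (α × ℕ)) (hf : M.eRank = (f : ℕ∞))
    (P P' : Fin 3 → Finset (α × ℕ))
    (hP : ∀ k, Bs (rr M) f (P k)) (hP' : ∀ k, Bs (rr M) f (P' k))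
    (hd : Pairwise (Function.onFun Disjoint P)) (hd' : Pairwise (Function.onFun Disjoint P'))
    (hu : univ.biUnion P = univ.biUnion P') :
    Relation.ReflTransGen (ShareStep (fun S : Finset α => M.IsBase (S : Set α)))
      (fun k => (P k).image Prod.fst) (fun k => (P' k).image Prod.fst) := by
  classical
  set E : Finset (α × ℕ) := univ.biUnion P with hE
  set base : Finset α → Prop := fun S : Finset α => M.IsBase (S : Set α) with hbase
  set B : Fin 3 → Finset α := fun k => (P k).image Prod.fst with hB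
  have hEnv : Env (rr M) E f := lift_env hf P hP hd
  have hbs : ∀ S, Bs (rr M) f S → base (S.image Prod.fst) := fun S hS => ((bs_iff hf S).1 hS).1
  have hBb : ∀ k, base (B k) := fun k => hbs _ (hP k)
  have hPE : ∀ k, P k ⊆ E := fun k => subset_biUnion_of_mem P (mem_univ k)
  have hval : ∀ {A C : Finset (α × ℕ)}, A ⊆ E → C ⊆ E → Disjoint A C → Bs (rr M) f A →
      Bs (rr M) f C → Bs (rr M) f (E \ (A ∪ C)) →
      SameContent B ![A.image Prod.fst, C.image Prod.fst, (E \ (A ∪ C)).image Prod.fst] ∧
      ∀ k, base ((![A.image Prod.fst, C.image Prod.fst, (E \ (A ∪ C)).image Prod.fst] :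
        Fin 3 → Finset α) k) := by
    intro A C hA hC hAC hBA hBC hBD
    refine ⟨lift_tuple hf P hP hd hA hC hAC hBA hBC hBD, fun k => ?_⟩
    fin_cases k
    · exact hbs _ hBA
    · exact hbs _ hBC
    · exact hbs _ hBD
  let Q : Finset (α × ℕ) → Prop := fun A => ∀ C ⊆ E, Disjoint A C → A ⊆ E → Bs (rr M) f A →
    Bs (rr M) f C → Bs (rr M) f (E \ (A ∪ C)) →
    Relation.ReflTransGen (ShareStep base) B
      ![A.image Prod.fst, C.image Prod.fst, (E \ (A ∪ C)).image Prod.fst]
  have hstep : ∀ A A', Stp (rr M) E f A A' → Q A → Q A' := by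
    rintro A A' ⟨hA, hA', hBA, hBA', C₀, hC₀, hd0, hd0', hBC₀, hBD, hBD'⟩ hQ C hC hdC _ _ hBC hBD''
    have v1 := hval hA hC₀ hd0 hBA hBC₀ hBD
    have v2 := hval hA' hC₀ hd0' hBA' hBC₀ hBD'
    have v3 := hval hA' hC hdC hBA' hBC hBD''
    have h1 := hQ C₀ hC₀ hd0 hA hBA hBC₀ hBD
    have s1 : ShareStep base ![A.image Prod.fst, C₀.image Prod.fst, (E \ (A ∪ C₀)).image Prod.fst]
        ![A'.image Prod.fst, C₀.image Prod.fst, (E \ (A' ∪ C₀)).image Prod.fst] :=
      ⟨v1.2, v2.2, fun z => (v1.1 z).symm.trans (v2.1 z), 1, 1, rfl⟩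
    have s2 : ShareStep base ![A'.image Prod.fst, C₀.image Prod.fst,
        (E \ (A' ∪ C₀)).image Prod.fst]
        ![A'.image Prod.fst, C.image Prod.fst, (E \ (A' ∪ C)).image Prod.fst] :=
      ⟨v2.2, v3.2, fun z => (v2.1 z).symm.trans (v3.1 z), 0, 0, rfl⟩
    exact (h1.tail s1).tail s2
  have hQ0 : Q (P 0) := by
    intro C hC hdC hA hBA hBC hBD
    have v := hval hA hC hdC hBA hBC hBD
    exact Relation.ReflTransGen.single ⟨hBb, v.2, v.1, 0, 0, rfl⟩
  have hg0 : Gd (rr M) E f (P 0) := lift_gd hf P hP hd 0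
  have hg0' : Gd (rr M) E f (P' 0) := by
    rw [hu]
    exact lift_gd hf P' hP' hd' 0
  have hQ1 : Q (P' 0) := fibreW h E.card E (rr M) f Q (P 0) (P' 0) le_rfl hEnv hstep hg0 hg0' hQ0
  have hPE' : ∀ k, P' k ⊆ E := fun k => by
    rw [hu]
    exact subset_biUnion_of_mem P' (mem_univ k)
  have hcomp : E \ (P' 0 ∪ P' 1) = P' 2 := by
    have d02 := hd' (show (0 : Fin 3) ≠ 2 by decide)
    have d12 := hd' (show (1 : Fin 3) ≠ 2 by decide)
    ext z
    rw [mem_sdiff, mem_union, hu, mem_biUnion]
    constructor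
    · rintro ⟨⟨k, -, hk⟩, hn⟩
      push Not at hn
      fin_cases k
      · exact absurd hk hn.1
      · exact absurd hk hn.2
      · exact hk
    · intro hz
      refine ⟨⟨2, mem_univ _, hz⟩, ?_⟩
      rintro (h | h)
      · exact disjoint_left.1 d02 h hz
      · exact disjoint_left.1 d12 h hz
  have h2 := hQ1 (P' 1) (hPE' 1) (hd' (by decide)) (hPE' 0) (hP' 0) (hP' 1) (by
    rw [hcomp]
    exact hP' 2)
  rw [hcomp] at h2
  have h3 : (![(P' 0).image Prod.fst, (P' 1).image Prod.fst, (P' 2).image Prod.fst] :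
      Fin 3 → Finset α) = fun k => (P' k).image Prod.fst := by
    funext k
    fin_cases k <;> rfl
  rw [h3] at h2
  exact h2

theorem connW (h : SW (α × ℕ)) (M : Matroid α) (B D : Fin 3 → Finset α)
    (hB : ∀ k, M.IsBase (B k : Set α)) (hD : ∀ k, M.IsBase (D k : Set α)) (hBD : SameContent B D) :
    Relation.ReflTransGen (ShareStep (fun S : Finset α => M.IsBase (S : Set α))) B D := by
  have hf : M.eRank = (((B 0).card : ℕ) : ℕ∞) := by
    rw [← (hB 0).encard_eq_eRank, Set.encard_coe_eq_coe_finsetCard]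
  obtain ⟨P, p1, p2, p3, p4⟩ := exists_lift B
  obtain ⟨P', q1, q2, q3, q4⟩ := exists_lift D
  have hP : ∀ k, Bs (rr M) (B 0).card (P k) := by
    intro k
    rw [bs_iff hf, p1 k]
    exact ⟨hB k, p2 k⟩
  have hP' : ∀ k, Bs (rr M) (B 0).card (P' k) := by
    intro k
    rw [bs_iff hf, q1 k]
    exact ⟨hD k, q2 k⟩
  have hmem : ∀ e n, (e, n) ∈ univ.biUnion P ↔ n < cont B e := by
    intro e n
    rw [mem_biUnion]
    simp only [mem_univ, true_and]
    exact p4 e n
  have hu : univ.biUnion P = univ.biUnion P' := by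
    ext ⟨e, n⟩
    rw [hmem e n, mem_biUnion]
    simp only [mem_univ, true_and]
    rw [q4 e n, ← hBD e]
    rfl
  have h1 := liftW h hf P P' hP hP' p3 q3 hu
  have h2 : (fun k => (P k).image Prod.fst) = B := funext p1
  have h3 : (fun k => (P' k).image Prod.fst) = D := funext q1
  rw [h2, h3] at h1
  exact h1

end

private theorem FinalW_count {α : Type*} [DecidableEq α] {m : ℕ} (B : Fin (m + 1) → Finset α)
    (i : Fin (m + 1)) (z : α) :
    (univ.filter (fun k => z ∈ B k)).card =
      (if z ∈ B i then 1 else 0) + (univ.filter (fun k : Fin m => z ∈ B (i.succAbove k))).card := by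
  rw [card_filter, card_filter, Fin.sum_univ_succAbove _ i]

private theorem FinalW_one {α : Type*} [DecidableEq α] (M : Matroid α) (B D : Fin 1 → Bases M)
    (h : SameContent (fun k => (B k).1) (fun k => (D k).1)) : B = D := by
  funext k
  rw [Subsingleton.elim k 0]
  apply Subtype.ext
  ext z
  have h1 := h z
  rw [FinalW_count (fun k => (B k).1) 0, FinalW_count (fun k => (D k).1) 0] at h1
  simp only [univ_eq_empty, filter_empty, card_empty, add_zero] at h1
  constructor
  · intro h2
    by_contra h3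
    rw [if_pos h2, if_neg h3] at h1
    exact one_ne_zero h1
  · intro h2
    by_contra h3
    rw [if_pos h2, if_neg h3] at h1
    exact one_ne_zero h1.symm

/-- The toric ideal is generated by quadrics if all strict systems have one class. -/
theorem quadsW {α : Type*} [DecidableEq α] (h : SW (α × ℕ)) (K : Type*) [Field K]
    (M : Matroid α) [M.Finite] [M.RankPos] :
    toricIdeal K M = Ideal.span {f | f ∈ toricIdeal K M ∧ f.IsHomogeneous 2} := by
  apply le_antisymm
  · obtain ⟨m, hm⟩ : ∃ m : ℕ, M.eRank ≤ (m : ℕ∞) := by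
      obtain ⟨B, hB⟩ := M.exists_isBase
      refine ⟨B.ncard, ?_⟩
      rw [← hB.encard_eq_eRank, hB.finite.cast_ncard_eq]
    have hS : ∀ q, 3 ≤ q → WL.S1 (α × ℕ) q m := by
      intro q hq
      obtain ⟨p, rfl⟩ : ∃ p, q = p + 1 := ⟨q - 1, by omega⟩
      exact DT3.s1_all (α × ℕ) (by omega) m
    refine toric_le_of_shareConn M _ ?_ (WL.shareConn_of_S1 (by norm_num) hS hm)
    intro n hn B D hBD
    have hmem := tuple_sub_mem (K := K) M B D hBD
    have h4 : n = 0 ∨ n = 1 ∨ n = 2 ∨ n = 3 := by omega
    rcases h4 with rfl | rfl | rfl | rfl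
    · have : B = D := Subsingleton.elim _ _
      rw [this, sub_self]
      exact zero_mem _
    · rw [FinalW_one M B D hBD, sub_self]
      exact zero_mem _
    · exact Ideal.subset_span hmem
    · exact quad_of_conn M B D
        (connW h M _ _ (fun k => (B k).2) (fun k => (D k).2) hBD)
  · rw [Ideal.span_le]
    rintro f ⟨hf, -⟩
    exact hf

end Pool.Agent.WT59
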