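import Pool.Agent.WT59.Dep

/-!
Colour classes: the omitted elements of the blocks of one colour inside `S` are dependent mod `FF S` (note 2037 of MP_e6151a_ag, in the
form of note 2433 (4): triple `(p; k, q)`, `q` a quotient of `p`, `k` arbitrary).
-/

set_option autoImplicit false

namespace Pool.Agent.WT59

open Finset Pool.Agent.DT3 Pool.Agent.CF98

variable {α : Type*} [DecidableEq α] {p k q : Finset α → ℕ} {E S X Z F A B C b : Finset α} {x : α}
  {c : Finset α → Finset α → Finset α → Prop}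

/-- The blocks (first slot) of colour `c`. -/
def Col (p k q : Finset α → ℕ) (E : Finset α) (c : Finset α → Finset α → Finset α → Prop) (b : Finset α) : Prop :=
  ∃ B C, St p k q E b B C ∧ c b B C

/-- `q` is a quotient of `p` on `E`. -/
def Quo (p q : Finset α → ℕ) (E : Finset α) : Prop :=
  ∀ X ⊆ E, ∀ x ∈ E, p (insert x X) = p X → q (insert x X) = q X

theorem st_ok (hk : RankFn k) (hq : RankFn q) (h : St p k q E A B C) : Ok k q E A := by
  intro X hX
  have h1 : X \ A = (X ∩ B) ∪ (X ∩ C) := by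
    ext z
    have h2 : z ∈ E ↔ (z ∈ A ∨ z ∈ B) ∨ z ∈ C := by rw [← h.un, mem_union, mem_union]
    have h3 : z ∈ X → z ∈ E := fun h => hX h
    have h4 : z ∈ B → z ∉ A := fun h5 h6 => disjoint_left.1 h.dab h6 h5
    have h5 : z ∈ C → z ∉ A := fun h5 h6 => disjoint_left.1 h.dac h6 h5
    simp only [mem_sdiff, mem_union, mem_inter]
    tauto
  have h2 := card_union_le (X ∩ B) (X ∩ C)
  have h3 := ind_sub hk (by rw [h.rb, h.cb] : k B = B.card) (inter_subset_right (s₁ := X))
  have h4 := ind_sub hq (by rw [h.rc, h.cc] : q C = C.card) (inter_subset_right (s₁ := X))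
  have h5 := hk.mono (X ∩ B) X inter_subset_left
  have h6 := hq.mono (X ∩ C) X inter_subset_left
  rw [h1]
  omega

/-- The tight set `F` outside `Z` splits. -/
theorem ti_split (hk : RankFn k) (hq : RankFn q) (hZ : Ok k q E Z) (hFE : F ⊆ E) (hF : Ti k q Z F) :
    ∃ B0 C0, B0 ∪ C0 = (E \ Z) ∩ F ∧ Disjoint B0 C0 ∧ B0.card = k F ∧ k B0 = k F ∧ C0.card = q F ∧
      q C0 = q F := by
  have h0 : (F \ Z) \ Z = F \ Z := by
    ext z; simp only [mem_sdiff]; tauto
  have h1 := hZ (F \ Z) (sdiff_subset.trans hFE)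
  rw [h0] at h1
  have h2 := hk.mono (F \ Z) F sdiff_subset
  have h3 := hq.mono (F \ Z) F sdiff_subset
  unfold Ti at hF
  obtain ⟨C0, hC0, h4, h5, h6, h7⟩ := split2 (Y := F \ Z) hk hq (by omega) (by
    intro X hX
    have h8 := hZ X (hX.trans (sdiff_subset.trans hFE))
    have h9 : X \ Z = X := by
      rw [Finset.sdiff_eq_self_iff_disjoint, disjoint_left]
      intro z hz hz'
      exact (mem_sdiff.1 (hX hz)).2 hz'
    rwa [h9] at h8)
  refine ⟨(F \ Z) \ C0, C0, ?_, sdiff_disjoint, by omega, by omega, by omega, by omega⟩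
  rw [sdiff_union_of_subset hC0]
  ext z
  have h8 : z ∈ F → z ∈ E := fun h => hFE h
  simp only [mem_sdiff, mem_inter]
  tauto

theorem col_dep1 (hp : RankFn p) (hk : RankFn k) (hq : RankFn q) (hpq : Quo p q E) (hc : Cls p k q E c)
    (hE : E.card = p E + k E + q E) (hZE : Z ⊆ E) (hZ : Z.card = p E + 1)
    (hb : ∃ b, Col p k q E c b ∧ b ⊆ Z) :
    q (FF k q E Z ∪ US (Col p k q E c) Z) < q (FF k q E Z) + (US (Col p k q E c) Z).card := by
  classical
  set F := FF k q E Z with hFd
  set U := US (Col p k q E c) Z with hUd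
  obtain ⟨b0, ⟨B1, C1, hs0, hc0⟩, hb0Z⟩ := hb
  have hOk : Ok k q E Z := ok_sub (st_ok hk hq hs0) hb0Z
  have hFE : F ⊆ E := FF_sub
  have hFt : Ti k q Z F := FF_ti hk hq hOk
  have hpE : p Z = p E := by
    have h1 := hp.mono b0 Z hb0Z
    have h2 := hp.mono Z E hZE
    have h3 := hs0.ra
    omega
  -- elements of `U`
  have hU : ∀ x ∈ U, x ∈ Z ∧ Col p k q E c (Z.erase x) ∧ x ∉ F := by
    intro x hx
    obtain ⟨hxZ, b, hb, hbZ, hxb⟩ := mem_filter.1 hx
    obtain ⟨B, C, hs, hcc⟩ := hb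
    have h1 : b = Z.erase x := by
      refine eq_of_subset_of_card_le (fun z hz => mem_erase.2 ⟨fun e => hxb (e ▸ hz), hbZ hz⟩) ?_
      rw [card_erase_of_mem hxZ, hs.ca]; omega
    subst h1
    exact ⟨hxZ, ⟨B, C, hs, hcc⟩, ti_disj (st_ok hk hq hs) hbZ hFE hFt x hxZ hxb⟩
  have hUmem : ∀ x ∈ Z, Col p k q E c (Z.erase x) → x ∈ U := by
    intro x hx h
    exact mem_filter.2 ⟨hx, Z.erase x, h, erase_subset _ _, notMem_erase x Z⟩
  by_contra hcon
  rw [not_lt] at hcon
  have hind : ∀ V ⊆ U, q (F ∪ V) = q F + V.card := by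
    intro V hV
    have h3 := rk_le_union_card hq F V
    have h4 := rk_le_union_card hq (F ∪ V) (U \ V)
    rw [union_assoc, union_sdiff_of_subset hV] at h4
    have h5 := card_sdiff_add_card_eq_card hV
    omega
  -- the circuit
  set D := Z.filter fun x => p (Z.erase x) = p Z with hD
  set X2 := D.filter fun x => x ∉ F ∧ x ∉ U ∧ q (insert x F) ≠ q F with hX2
  obtain ⟨B0, C0, g1, g2, g3, g4, g5, g6⟩ := ti_split hk hq hOk hFE hFt
  have hmain := tstar (p := p) (k := k) (q := q) (E := E) (Z := Z) (F := F) (B0 := B0) (C0 := C0) (X1 := U)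
    (X2 := X2) (c := c) hk hq hc hE hZE hZ hFE g1 g2 g3 g4 g5 g6
    (by
      intro X hX hXn
      have hXE : X ⊆ E := fun z hz => (mem_sdiff.1 (mem_sdiff.1 (hX hz)).1).1
      have h1 := hOk (X ∪ F) (union_subset hXE hFE)
      have h2 : ((X ∪ F) \ Z).card = X.card + (F \ Z).card := by
        have h3 : (X ∪ F) \ Z = X ∪ (F \ Z) := by
          ext z
          have h4 : z ∈ X → z ∉ Z := fun h => (mem_sdiff.1 (mem_sdiff.1 (hX h)).1).2
          simp only [mem_sdiff, mem_union]
          tauto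
        rw [h3, card_union_of_disjoint]
        rw [disjoint_left]
        intro z hz hz'
        exact (mem_sdiff.1 (hX hz)).2 (mem_sdiff.1 hz').1
      unfold Ti at hFt
      by_contra hlt
      rw [not_le] at hlt
      have h3 : X ∪ F ⊆ F := by
        refine FF_max (union_subset hXE hFE) ?_
        unfold Ti
        omega
      obtain ⟨z, hz⟩ := hXn
      exact (mem_sdiff.1 (hX hz)).2 (h3 (mem_union_left _ hz)))
    (fun x hx => (hU x hx).1)
    (fun x hx => (mem_filter.1 (mem_filter.1 hx).1).1)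
    (by
      intro x hx
      rcases mem_union.1 hx with hx | hx
      · have h1 := hind {x} (singleton_subset_iff.2 hx)
        rw [card_singleton, union_comm, ← insert_eq] at h1
        omega
      · exact (mem_filter.1 hx).2.2.2)
    (by
      intro x hx
      obtain ⟨hxZ, ⟨B, C, hs, hcc⟩, _⟩ := hU x hx
      exact ⟨hs.ra, fun B' C' hs' => (hc.sa _ _ _ _ _ hs hs').1 hcc⟩)
    (by
      intro x hx
      have h1 := mem_filter.1 hx
      have h2 := mem_filter.1 h1.1
      exact ⟨by rw [h2.2, hpE], fun B C hs hcc => h1.2.2.1 (hUmem x h2.1 ⟨B, C, hs, hcc⟩)⟩)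
  -- an element of `U`
  have hUne : U.Nonempty := by
    have h3 : ¬ Z ⊆ b0 := fun h => by
      have h4 := card_le_card h
      have h5 := hs0.ca
      omega
    obtain ⟨y, hyS, hyb⟩ := not_subset.1 h3
    exact ⟨y, mem_filter.2 ⟨hyS, b0, ⟨B1, C1, hs0, hc0⟩, hb0Z, hyb⟩⟩
  obtain ⟨x, hx⟩ := hUne
  obtain ⟨hxZ, hxc, hxF⟩ := hU x hx
  have hxD : x ∈ D := by
    obtain ⟨B, C, hs, _⟩ := hxc
    exact mem_filter.2 ⟨hxZ, by rw [hs.ra, hpE]⟩
  -- `x` is in the `q`-closure of the rest
  have h1 : p (insert x (D.erase x)) = p (D.erase x) := by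
    rw [insert_erase hxD]
    exact (circ_dep hp hxZ (mem_filter.1 hxD).2).symm
  have hDE : D ⊆ E := (filter_subset _ _).trans hZE
  have h2 := hpq (D.erase x) ((erase_subset _ _).trans hDE) x (hZE hxZ) h1
  have h3 := hq.mono_insert h2 (subset_union_right (s₁ := F ∪ (U.erase x ∪ X2)))
  have h4 : q (F ∪ (U.erase x ∪ X2) ∪ D.erase x) = q (F ∪ (U.erase x ∪ X2)) := by
    refine rk_union_eq hq fun y hy => ?_
    have hy1 := mem_erase.1 hy
    by_cases hyF : y ∈ F
    · rw [insert_eq_self.2 (mem_union_left _ hyF)]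
    by_cases hyU : y ∈ U
    · rw [insert_eq_self.2 (mem_union_right _ (mem_union_left _ (mem_erase.2 ⟨hy1.1, hyU⟩)))]
    by_cases hyq : q (insert y F) = q F
    · exact hq.mono_insert hyq subset_union_left
    · have : y ∈ X2 := mem_filter.2 ⟨hy1.2, hyF, hyU, hyq⟩
      rw [insert_eq_self.2 (mem_union_right _ (mem_union_right _ this))]
  have h5 : q (F ∪ (U ∪ X2)) ≤ q (F ∪ (U.erase x ∪ X2)) := by
    have h6 : F ∪ (U ∪ X2) ⊆ insert x (F ∪ (U.erase x ∪ X2) ∪ D.erase x) := by
      intro z hz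
      by_cases hzx : z = x
      · rw [hzx]; exact mem_insert_self _ _
      · refine mem_insert_of_mem (mem_union_left _ ?_)
        rcases mem_union.1 hz with hz | hz
        · exact mem_union_left _ hz
        · rcases mem_union.1 hz with hz | hz
          · exact mem_union_right _ (mem_union_left _ (mem_erase.2 ⟨hzx, hz⟩))
          · exact mem_union_right _ (mem_union_right _ hz)
    have h7 := hq.mono _ _ h6
    rw [h3, h4] at h7
    exact h7
  -- submodularity
  have h6 := hq.submod (F ∪ U.erase x) (F ∪ X2)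
  have h7 : (F ∪ U.erase x) ∪ (F ∪ X2) = F ∪ (U.erase x ∪ X2) := by
    ext z; simp only [mem_union]; tauto
  have h8 := hq.mono F ((F ∪ U.erase x) ∩ (F ∪ X2)) (subset_inter subset_union_left subset_union_left)
  rw [h7] at h6
  have h9 := hind (U.erase x) (erase_subset _ _)
  have h10 := hind U (Subset.refl _)
  rw [card_erase_of_mem hx] at h9
  have h11 := card_pos.2 ⟨x, hx⟩
  omega

/-- The theorem of note 2037 for colour classes. -/
theorem col_dep (hp : RankFn p) (hk : RankFn k) (hq : RankFn q) (hpq : Quo p q E) (hc : Cls p k q E c)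
    (hE : E.card = p E + k E + q E) (hSE : S ⊆ E) (hS : p E + 1 ≤ S.card)
    (hb : ∃ b, Col p k q E c b ∧ b ⊆ S) :
    q (FF k q E S ∪ US (Col p k q E c) S) < q (FF k q E S) + (US (Col p k q E c) S).card := by
  refine dep37 (𝒦 := Col p k q E c) (n := p E) hk hq ?_ ?_ (S.card - (p E + 1)) S hSE (by omega) hb
  · rintro b ⟨B, C, hs, _⟩
    exact ⟨hs.subA, hs.ca, st_ok hk hq hs⟩
  · intro Z hZ hZc hb
    exact col_dep1 hp hk hq hpq hc hE hZ hZc hb

end Pool.Agent.WT59
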