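import Pool.Agent.WT59.DisjA

/-!
The exchange step of `DISJ ⇒ White(3)`: two good bases `b`, `b'`.  Either there is a good basis strictly between them, or every `p ∈ b \ b'`
is missed by a tight set (for `b'`) containing the rest of `b \ b'`.

`sg r B X = 2 r X - |X \ B|`.
-/

set_option autoImplicit false

namespace Pool.Agent.WT59

open Finset Pool.Agent.DT3 Pool.Agent.CF98

variable {α : Type*} [DecidableEq α] {r : Finset α → ℕ} {E X Y : Finset α} {f : ℕ}

/-- The slack of `X` with respect to the complement of `B`. -/
def sg (r : Finset α → ℕ) (B X : Finset α) : ℤ := 2 * (r X : ℤ) - ((X \ B).card : ℤ)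

theorem sg_sub (h : RankFn r) (B X Y : Finset α) :
    sg r B (X ∪ Y) + sg r B (X ∩ Y) ≤ sg r B X + sg r B Y := by
  unfold sg
  have h1 := h.submod X Y
  have h2 := card_union_add_card_inter (X \ B) (Y \ B)
  have e1 : (X ∪ Y) \ B = X \ B ∪ Y \ B := union_sdiff_distrib X Y B
  have e2 : (X ∩ Y) \ B = (X \ B) ∩ (Y \ B) := by
    ext x
    simp only [mem_sdiff, mem_inter]
    tauto
  rw [e1, e2]
  omega

theorem sg_nonneg (h : RankFn r) {B : Finset α} (hB : Two r (E \ B)) : ∀ X ⊆ E, 0 ≤ sg r B X := by
  intro X hX
  unfold sg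
  have h1 := hB (X \ B) (sdiff_subset_sdiff hX (Subset.refl B))
  have h2 := h.mono (X \ B) X sdiff_subset
  omega

theorem two_of_sg {B : Finset α} (hB : ∀ X ⊆ E, 0 ≤ sg r B X) : Two r (E \ B) := by
  intro X hX
  have h1 := hB X (hX.trans sdiff_subset)
  unfold sg at h1
  have e1 : X \ B = X := by
    rw [Finset.sdiff_eq_self_iff_disjoint, Finset.disjoint_left]
    intro x hx
    exact (mem_sdiff.1 (hX hx)).2
  rw [e1] at h1
  omega

theorem sg_E (hE : Env r E f) {B : Finset α} (hB : Gd r E f B) : sg r B E = 0 := by
  unfold sg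
  have h1 := card_sdiff_of_subset hB.1
  have h2 := hE.card
  have h3 := hE.rank
  have h4 := hB.2.1.1
  omega

theorem sg_empty (h : RankFn r) (B : Finset α) : sg r B ∅ = 0 := by
  unfold sg
  rw [h.empty, empty_sdiff, card_empty]
  simp

/-- The exchange step. -/
theorem between (hE : Env r E f) {b b' : Finset α} (hb : Gd r E f b) (hb' : Gd r E f b')
    (hne : (b \ b').Nonempty) :
    (∃ c, Gd r E f c ∧ (c \ b').card < (b \ b').card ∧ (b \ c).card < (b \ b').card) ∨
    (∀ p ∈ b \ b', ∃ H ⊆ E, (H \ b').card = 2 * r H ∧ p ∉ H ∧ (b \ b').erase p ⊆ H) := by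
  classical
  have hr := hE.rk
  have hs := sg_sub hr b'
  have hn := sg_nonneg hr hb'.2.2
  obtain ⟨A, hA⟩ := ls_exists hs hn (sg_E hE hb')
  have hbE := hb.1
  have hbE' := hb'.1
  have hrE : ∀ X ⊆ E, r X ≤ f := fun X hX => by
    have := hr.mono X E hX
    rwa [hE.rank] at this
  have hib' : r b' = b'.card := by rw [hb'.2.1.1, hb'.2.1.2]
  have hib : r b = b.card := by rw [hb.2.1.1, hb.2.1.2]
  -- successors
  have hsucc : ∀ p ∈ b \ b', ∃ p' ∈ b \ b', ∃ q ∈ b' \ b, r (insert p (b'.erase q)) = f ∧ p' ∈ A q := by
    intro p hp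
    have hp' := mem_sdiff.1 hp
    have h1 : ∃ q ∈ b' \ b, r (insert p (b'.erase q)) = f := by
      by_contra hcon
      push Not at hcon
      have h2 : r (insert p (b' \ (b' \ b))) = r (b' \ (b' \ b)) := by
        refine ins_inter hr hib' hp'.2 sdiff_subset ?_ ?_
        · have h3 := hr.mono b' (insert p b') (subset_insert p b')
          have h4 := hrE (insert p b') (insert_subset (hbE hp'.1) hbE')
          rw [hb'.2.1.2] at h3 ⊢
          omega
        · intro q hq
          have hq' := mem_sdiff.1 hq
          have h3 := hcon q hq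
          have h4 := hr.mono (b'.erase q) (insert p (b'.erase q)) (subset_insert _ _)
          have h5 := hrE (insert p (b'.erase q))
            (insert_subset (hbE hp'.1) ((erase_subset _ _).trans hbE'))
          have h6 : r (b'.erase q) = (b'.erase q).card := ind_sub hr hib' (erase_subset _ _)
          have h7 := card_erase_of_mem hq'.1
          have h8 := hb'.2.1.1
          omega
      have e1 : b' \ (b' \ b) = b' ∩ b := by
        ext x
        simp only [mem_sdiff, mem_inter]
        tauto
      rw [e1] at h2
      have h3 : r (insert p (b' ∩ b)) = (insert p (b' ∩ b)).card :=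
        ind_sub hr hib (insert_subset hp'.1 inter_subset_right)
      have h4 : r (b' ∩ b) = (b' ∩ b).card := ind_sub hr hib inter_subset_right
      have h5 : p ∉ b' ∩ b := fun h => hp'.2 (mem_inter.1 h).1
      rw [card_insert_of_notMem h5] at h3
      omega
    obtain ⟨q, hq, hqr⟩ := h1
    have hq' := mem_sdiff.1 hq
    obtain ⟨hA1, hA2, hA3, hA4⟩ := hA q (hbE' hq'.1)
    have h2 := sg_nonneg hr hb.2.2 (A q) hA1
    have h3 : 0 < (A q ∩ (b \ b')).card := by
      unfold sg at hA2 h2
      have e1 : A q \ b = A q \ (b ∪ b') ∪ A q ∩ (b' \ b) := by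
        ext x
        simp only [mem_sdiff, mem_union, mem_inter]
        tauto
      have e2 : A q \ b' = A q \ (b ∪ b') ∪ A q ∩ (b \ b') := by
        ext x
        simp only [mem_sdiff, mem_union, mem_inter]
        tauto
      have d1 : Disjoint (A q \ (b ∪ b')) (A q ∩ (b' \ b)) := by
        rw [Finset.disjoint_left]
        intro x hx hx'
        simp only [mem_sdiff, mem_union, mem_inter] at hx hx'
        tauto
      have d2 : Disjoint (A q \ (b ∪ b')) (A q ∩ (b \ b')) := by
        rw [Finset.disjoint_left]
        intro x hx hx'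
        simp only [mem_sdiff, mem_union, mem_inter] at hx hx'
        tauto
      have c1 := card_union_of_disjoint d1
      have c2 := card_union_of_disjoint d2
      rw [← e1] at c1
      rw [← e2] at c2
      have c3 : 0 < (A q ∩ (b' \ b)).card := card_pos.2 ⟨q, mem_inter.2 ⟨hA3, hq⟩⟩
      omega
    obtain ⟨p', hp''⟩ := card_pos.1 h3
    rw [mem_inter] at hp''
    exact ⟨p', hp''.2, q, hq, hqr, hp''.1⟩
  obtain ⟨S, hSP, hSn, g, hg, hginj, hguniq⟩ := cyc hne
    (fun p p' => ∃ q ∈ b' \ b, r (insert p (b'.erase q)) = f ∧ p' ∈ A q) hsucc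
  have hg2 : ∀ p ∈ S, ∃ q ∈ b' \ b, r (insert p (b'.erase q)) = f ∧ g p ∈ A q :=
    fun p hp => (hg p hp).2
  choose! q hq1 hq2 hq3 using hg2
  -- no chords
  have hch1 : ∀ p ∈ S, ∀ p' ∈ S, r (insert p (b'.erase (q p'))) = f → p = p' := by
    intro p hp p' hp' h
    have h1 := hguniq p hp (g p') (hg p' hp').1 ⟨q p', hq1 p' hp', h, hq3 p' hp'⟩
    exact (hginj hp' hp h1).symm
  have hch2 : ∀ p ∈ S, ∀ p' ∈ S, g p ∈ A (q p') → p = p' := by
    intro p hp p' hp' h
    have h1 := hguniq p' hp' (g p) (hg p hp).1 ⟨q p', hq1 p' hp', hq2 p' hp', h⟩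
    exact hginj hp hp' h1
  have hqinj : Set.InjOn q (S : Set α) := by
    intro p hp p' hp' h
    refine hch1 p hp p' hp' ?_
    rw [← h]
    exact hq2 p hp
  have hAq : ∀ p ∈ S, A (q p) ⊆ E ∧ sg r b' (A (q p)) = 0 ∧ q p ∈ A (q p) ∧
      ∀ X ⊆ E, sg r b' X = 0 → q p ∈ X → A (q p) ⊆ X := fun p hp =>
    hA (q p) (hbE' (mem_sdiff.1 (hq1 p hp)).1)
  by_cases hSall : S = b \ b'
  · -- the cyclic case
    right
    intro p hp
    have hsurj : S.image g = S := by
      refine eq_of_subset_of_card_le ?_ ?_
      · intro y hy
        obtain ⟨x, hx, rfl⟩ := mem_image.1 hy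
        exact (hg x hx).1
      · rw [card_image_iff.2 hginj]
    have hpS : p ∈ S.image g := by rw [hsurj, hSall]; exact hp
    obtain ⟨p0, hp0, hp0'⟩ := mem_image.1 hpS
    obtain ⟨h1, h2⟩ := ti_un (E := E) hs hn (sg_empty hr b') (S.erase p0) (fun x => A (q x))
      (fun x hx => ⟨(hAq x (mem_erase.1 hx).2).1, (hAq x (mem_erase.1 hx).2).2.1⟩)
    refine ⟨_, h1, ?_, ?_, ?_⟩
    · unfold sg at h2
      omega
    · intro h3
      obtain ⟨x, hx, hx'⟩ := mem_biUnion.1 h3
      have hx2 := mem_erase.1 hx
      rw [← hp0'] at hx'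
      exact hx2.1 (hch2 p0 hp0 x hx2.2 hx').symm
    · intro y hy
      have hy' := mem_erase.1 hy
      have hyS : y ∈ S.image g := by rw [hsurj, hSall]; exact hy'.2
      obtain ⟨x, hx, hx'⟩ := mem_image.1 hyS
      refine mem_biUnion.2 ⟨x, mem_erase.2 ⟨?_, hx⟩, ?_⟩
      · rintro rfl
        exact hy'.1 (hx'.symm.trans hp0')
      · rw [← hx']
        exact hq3 x hx
  · -- a good basis strictly between
    left
    have hSlt : S.card < (b \ b').card := card_lt_card (hSP.ssubset_of_ne hSall)
    have hSpos : 0 < S.card := hSn.card_pos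
    have hSb : S ⊆ b := hSP.trans sdiff_subset
    have hSb' : Disjoint S b' := by
      rw [Finset.disjoint_left]
      intro x hx
      exact (mem_sdiff.1 (hSP hx)).2
    have hIb' : S.image q ⊆ b' := by
      intro y hy
      obtain ⟨x, hx, rfl⟩ := mem_image.1 hy
      exact (mem_sdiff.1 (hq1 x hx)).1
    have hIb : Disjoint (S.image q) b := by
      rw [Finset.disjoint_left]
      intro y hy
      obtain ⟨x, hx, rfl⟩ := mem_image.1 hy
      exact (mem_sdiff.1 (hq1 x hx)).2
    have hIc : (S.image q).card = S.card := card_image_iff.2 hqinj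
    set U := b' \ S.image q with hU
    have hUc : U.card + S.card = b'.card := by
      have := card_sdiff_add_card_eq_card hIb'
      rw [hIc] at this
      exact this
    have hUS : Disjoint U S := by
      rw [Finset.disjoint_left]
      intro x hx hxS
      exact disjoint_left.1 hSb' hxS (mem_sdiff.1 hx).1
    have hUb' : U ⊆ b' := sdiff_subset
    set c := U ∪ S with hc
    have hcE : c ⊆ E := union_subset (hUb'.trans hbE') (hSb.trans hbE)
    have hcc : c.card = f := by
      rw [hc, card_union_of_disjoint hUS, hUc]
      exact hb'.2.1.1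
    have hiU : r U = U.card := ind_sub hr hib' hUb'
    -- `q p` is in the closure of `U + p`
    have hcl : ∀ p ∈ S, r (insert (q p) (insert p U)) = r (insert p U) := by
      intro p hp
      have hpb' : p ∉ b' := disjoint_left.1 hSb' hp
      have hpU : p ∉ U := fun h => hpb' (hUb' h)
      have hqI : q p ∈ S.image q := mem_image_of_mem q hp
      have hqU : q p ∉ U := fun h => (mem_sdiff.1 h).2 hqI
      have hqp : q p ≠ p := fun h => hpb' (h ▸ hIb' hqI)
      have e1 : b' \ (S.image q).erase (q p) = insert (q p) U := by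
        ext x
        simp only [mem_sdiff, mem_erase, mem_insert, hU]
        constructor
        · rintro ⟨h1, h2⟩
          by_cases hx : x = q p
          · exact Or.inl hx
          · exact Or.inr ⟨h1, fun h3 => h2 ⟨hx, h3⟩⟩
        · rintro (h1 | h1)
          · exact ⟨h1 ▸ hIb' hqI, fun h2 => h2.1 h1⟩
          · exact ⟨h1.1, fun h2 => h1.2 h2.2⟩
      have h1 : r (insert p (b' \ (S.image q).erase (q p))) = r (b' \ (S.image q).erase (q p)) := by
        refine ins_inter hr hib' hpb' ((erase_subset _ _).trans hIb') ?_ ?_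
        · have h3 := hr.mono b' (insert p b') (subset_insert p b')
          have h4 := hrE (insert p b') (insert_subset (hbE (hSb hp)) hbE')
          rw [hb'.2.1.2] at h3 ⊢
          omega
        · intro y hy
          have hy' := mem_erase.1 hy
          obtain ⟨p', hp', rfl⟩ := mem_image.1 hy'.2
          have h3 : r (insert p (b'.erase (q p'))) ≠ f := by
            intro h4
            exact hy'.1 (by rw [hch1 p hp p' hp' h4])
          have h4 := hr.mono (b'.erase (q p')) (insert p (b'.erase (q p'))) (subset_insert _ _)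
          have h5 := hrE (insert p (b'.erase (q p')))
            (insert_subset (hbE (hSb hp)) ((erase_subset _ _).trans hbE'))
          have h6 : r (b'.erase (q p')) = (b'.erase (q p')).card := ind_sub hr hib' (erase_subset _ _)
          have h7 := card_erase_of_mem (hIb' hy'.2)
          have h8 := hb'.2.1.1
          omega
      rw [e1] at h1
      have h2 : r (insert (q p) U) = (insert (q p) U).card :=
        ind_sub hr hib' (insert_subset (hIb' hqI) hUb')
      rw [card_insert_of_notMem hqU] at h2
      have h3 : r (insert p U) = (insert p U).card := by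
        have h4 : r (insert p (b'.erase (q p))) = (insert p (b'.erase (q p))).card := by
          rw [hq2 p hp, card_insert_of_notMem (fun h => hpb' (mem_erase.1 h).2),
            card_erase_of_mem (hIb' hqI)]
          have h8 := hb'.2.1.1
          have h9 : 0 < b'.card := card_pos.2 ⟨_, hIb' hqI⟩
          omega
        refine ind_sub hr h4 (insert_subset_insert p ?_)
        intro x hx
        exact mem_erase.2 ⟨fun h => hqU (h ▸ hx), hUb' hx⟩
      rw [card_insert_of_notMem hpU] at h3
      rw [insert_comm, h1, h2, h3]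
    have hcr : ∀ T ⊆ S, r (c ∪ T.image q) = r c := by
      intro T
      induction T using Finset.induction_on with
      | empty => intro _; rw [image_empty, union_empty]
      | insert p T hpT ih =>
        intro hT
        have h1 := ih ((subset_insert p T).trans hT)
        have hpS := hT (mem_insert_self p T)
        rw [image_insert, union_insert, ← h1]
        refine RankFn.mono_insert hr (hcl p hpS) ?_
        refine insert_subset ?_ ?_
        · exact mem_union_left _ (mem_union_right _ hpS)
        · exact fun x hx => mem_union_left _ (mem_union_left _ hx)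
    have hcf : r c = f := by
      refine le_antisymm (hrE c hcE) ?_
      rw [← hcr S (Subset.refl S), ← hb'.2.1.2]
      refine hr.mono _ _ ?_
      intro x hx
      by_cases hxI : x ∈ S.image q
      · exact mem_union_right _ hxI
      · exact mem_union_left _ (mem_union_left _ (mem_sdiff.2 ⟨hx, hxI⟩))
    have hcg : Gd r E f c := by
      refine ⟨hcE, ⟨hcc, hcf⟩, two_of_sg ?_⟩
      intro X hX
      -- |X \ c| + |X ∩ S| = |X \ b'| + |X ∩ S.image q|
      have e1 : X \ c = X \ (b' ∪ S) ∪ X ∩ S.image q := by
        ext x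
        simp only [mem_sdiff, mem_union, mem_inter, hc, hU]
        have h1 : x ∈ S.image q → x ∈ b' := fun h => hIb' h
        have h2 : x ∈ S.image q → x ∉ S := fun h h' => disjoint_left.1 hSb' h' (hIb' h)
        tauto
      have e2 : X \ b' = X \ (b' ∪ S) ∪ X ∩ S := by
        ext x
        simp only [mem_sdiff, mem_union, mem_inter]
        have h1 : x ∈ S → x ∉ b' := fun h => disjoint_left.1 hSb' h
        tauto
      have d1 : Disjoint (X \ (b' ∪ S)) (X ∩ S.image q) := by
        rw [Finset.disjoint_left]
        intro x hx hx'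
        exact (mem_sdiff.1 hx).2 (mem_union_left _ (hIb' (mem_inter.1 hx').2))
      have d2 : Disjoint (X \ (b' ∪ S)) (X ∩ S) := by
        rw [Finset.disjoint_left]
        intro x hx hx'
        exact (mem_sdiff.1 hx).2 (mem_union_right _ (mem_inter.1 hx').2)
      have c1 := card_union_of_disjoint d1
      have c2 := card_union_of_disjoint d2
      rw [← e1] at c1
      rw [← e2] at c2
      -- the indices
      have hI : (X ∩ S.image q).card = (S.filter fun p => q p ∈ X).card := by
        have e3 : X ∩ S.image q = (S.filter fun p => q p ∈ X).image q := by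
          ext y
          simp only [mem_inter, mem_image, mem_filter]
          constructor
          · rintro ⟨h1, p, hp, rfl⟩
            exact ⟨p, ⟨hp, h1⟩, rfl⟩
          · rintro ⟨p, ⟨hp, h1⟩, rfl⟩
            exact ⟨h1, p, hp, rfl⟩
        rw [e3, card_image_iff.2]
        intro p hp p' hp' h
        exact hqinj (mem_filter.1 hp).1 (mem_filter.1 hp').1 h
      have hI2 : (S.filter fun p => q p ∈ X).card =
          ((S.filter fun p => q p ∈ X).filter fun p => g p ∈ X).card +
          ((S.filter fun p => q p ∈ X).filter fun p => ¬ g p ∈ X).card :=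
        (card_filter_add_card_filter_not _).symm
      have hI3 : ((S.filter fun p => q p ∈ X).filter fun p => g p ∈ X).card ≤ (X ∩ S).card := by
        refine card_le_card_of_injOn g ?_ ?_
        · intro p hp
          have hp' := mem_filter.1 hp
          exact mem_inter.2 ⟨hp'.2, (hg p (mem_filter.1 hp'.1).1).1⟩
        · intro p hp p' hp' h
          exact hginj (mem_filter.1 (mem_filter.1 hp).1).1 (mem_filter.1 (mem_filter.1 hp').1).1 h
      have hI4 : ((((S.filter fun p => q p ∈ X).filter fun p => ¬ g p ∈ X).card : ℕ) : ℤ) ≤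
          sg r b' X := by
        refine key_ineq (E := E) hs hn _ (fun p => A (q p)) q g ?_ ?_ hX ?_ ?_ ?_ ?_
        · intro p hp
          have hpS := (mem_filter.1 (mem_filter.1 hp).1).1
          exact ⟨(hAq p hpS).1, (hAq p hpS).2.1, (hAq p hpS).2.2.2⟩
        · intro p hp
          exact (hAq p (mem_filter.1 (mem_filter.1 hp).1).1).2.2.1
        · intro p hp
          exact (mem_filter.1 (mem_filter.1 hp).1).2
        · intro p hp
          exact hq3 p (mem_filter.1 (mem_filter.1 hp).1).1
        · intro p hp
          exact (mem_filter.1 hp).2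
        · intro p hp p' hp' hne' h
          exact hne' (hch2 p (mem_filter.1 (mem_filter.1 hp).1).1 p'
            (mem_filter.1 (mem_filter.1 hp').1).1 h)
      unfold sg at hI4 ⊢
      omega
    refine ⟨c, hcg, ?_, ?_⟩
    · have e3 : c \ b' = S := by
        ext x
        simp only [mem_sdiff, mem_union, hc, hU]
        have h1 : x ∈ S → x ∉ b' := fun h => disjoint_left.1 hSb' h
        tauto
      rw [e3]
      exact hSlt
    · have e3 : b \ c = (b \ b') \ S := by
        ext x
        simp only [mem_sdiff, mem_union, hc, hU]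
        have h1 : x ∈ S.image q → x ∉ b := fun h => disjoint_left.1 hIb h
        tauto
      rw [e3, card_sdiff_of_subset hSP]
      omega

end Pool.Agent.WT59
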