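import Pool.Agent.WT59.DisjB
import Pool.Agent.WT59.Final

/-!
`DISJ ⇒ White(3)`: if two disjoint good bases are always in the same class then all good bases are in one class.

* `third`: if every `p ∈ b \ b'` is missed by a tight set containing the rest of `b \ b'`, then there is a partition of `E \ b'` into two
  bases one of which is disjoint from `b`.
* `sw_of_disj`, `quads_of_disj`.
-/

set_option autoImplicit false

namespace Pool.Agent.WT59

open Finset Pool.Agent.DT3 Pool.Agent.CF98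

variable {α : Type*} [DecidableEq α] {r : Finset α → ℕ} {E X Y : Finset α} {f : ℕ}

private theorem DisjC_un (h : RankFn r) {X Y Z : Finset α} (h1 : r (X ∪ Y) = r X) (h2 : X ⊆ Z) :
    r (Z ∪ Y) = r Z := by
  have h3 := h.submod (X ∪ Y) Z
  have h4 := h.mono X ((X ∪ Y) ∩ Z) (subset_inter subset_union_left h2)
  have h5 := h.mono (Z ∪ Y) ((X ∪ Y) ∪ Z) (by
    intro x hx
    rcases mem_union.1 hx with h | h
    · exact mem_union_right _ h
    · exact mem_union_left _ (mem_union_right _ h))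
  have h6 := h.mono Z (Z ∪ Y) subset_union_left
  omega

/-- Swapping the two blocks outside a tight set. -/
theorem swapH (hE : Env r E f) {b' C C2 H : Finset α} (hb' : Gd r E f b')
    (hCC : Disjoint C C2) (hun : C ∪ C2 = E \ b') (hC : Bs r f C) (hC2 : Bs r f C2) (hH : H ⊆ E)
    (ht : (H \ b').card = 2 * r H) : Bs r f (C ∩ H ∪ C2 \ H) := by
  have hr := hE.rk
  have e1 : H \ b' = C ∩ H ∪ C2 ∩ H := by
    have h1 : ∀ x, x ∈ C ∨ x ∈ C2 ↔ x ∈ E ∧ x ∉ b' := by
      intro x
      rw [← mem_union, hun, mem_sdiff]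
    ext x
    simp only [mem_sdiff, mem_union, mem_inter]
    have h2 := h1 x
    have h3 : x ∈ H → x ∈ E := fun h => hH h
    tauto
  have d1 : Disjoint (C ∩ H) (C2 ∩ H) := hCC.mono inter_subset_left inter_subset_left
  have c1 := card_union_of_disjoint d1
  rw [← e1, ht] at c1
  have i1 : r (C ∩ H) = (C ∩ H).card := ind_sub hr (by rw [hC.1, hC.2]) inter_subset_left
  have i2 : r (C2 ∩ H) = (C2 ∩ H).card := ind_sub hr (by rw [hC2.1, hC2.2]) inter_subset_left
  have m1 := hr.mono (C ∩ H) H inter_subset_right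
  have m2 := hr.mono (C2 ∩ H) H inter_subset_right
  have d2 : Disjoint (C ∩ H) (C2 \ H) := by
    rw [Finset.disjoint_left]
    intro x hx hx'
    exact (mem_sdiff.1 hx').2 (mem_inter.1 hx).2
  have c2 := card_union_of_disjoint d2
  have c3 : (C2 ∩ H).card + (C2 \ H).card = C2.card := card_inter_add_card_sdiff C2 H
  have hC2c := hC2.1
  refine ⟨by omega, ?_⟩
  have h3 : r ((C ∩ H) ∪ (C2 ∩ H)) = r (C ∩ H) := by
    refine le_antisymm ?_ (hr.mono _ _ subset_union_left)
    have := hr.mono (C ∩ H ∪ C2 ∩ H) H (union_subset inter_subset_right inter_subset_right)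
    omega
  have h4 := DisjC_un hr h3 (subset_union_left (s₂ := C2 \ H))
  rw [← h4]
  refine le_antisymm ?_ ?_
  · rw [← hE.rank]
    refine hr.mono _ _ ?_
    have hCE : C ⊆ E := fun x hx => (mem_sdiff.1 (hun ▸ mem_union_left _ hx : x ∈ E \ b')).1
    have hC2E : C2 ⊆ E := fun x hx => (mem_sdiff.1 (hun ▸ mem_union_right _ hx : x ∈ E \ b')).1
    exact union_subset (union_subset (inter_subset_left.trans hCE) (sdiff_subset.trans hC2E))
      (inter_subset_left.trans hC2E)
  · rw [← hC2.2]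
    refine hr.mono _ _ ?_
    intro x hx
    by_cases hxH : x ∈ H
    · exact mem_union_right _ (mem_inter.2 ⟨hx, hxH⟩)
    · exact mem_union_left _ (mem_union_right _ (mem_sdiff.2 ⟨hx, hxH⟩))

/-- A partition of `E \ b'` into two bases one of which misses `b`. -/
theorem third (hE : Env r E f) {b b' : Finset α} (hb' : Gd r E f b')
    (hH : ∀ p ∈ b \ b', ∃ H ⊆ E, (H \ b').card = 2 * r H ∧ p ∉ H ∧ (b \ b').erase p ⊆ H) :
    ∃ C ⊆ E, Disjoint b' C ∧ Bs r f C ∧ Bs r f (E \ (b' ∪ C)) ∧ Disjoint b C := by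
  classical
  obtain ⟨C0, h0, h1, h2, h3⟩ := gd_parts hE hb'
  have hne : (E.powerset.filter fun C => Disjoint b' C ∧ Bs r f C ∧ Bs r f (E \ (b' ∪ C))).Nonempty :=
    ⟨C0, by rw [mem_filter, mem_powerset]; exact ⟨h0, h1, h2, h3⟩⟩
  obtain ⟨C, hC, hm⟩ := exists_min_image _ (fun C => (b ∩ C).card) hne
  rw [mem_filter, mem_powerset] at hC
  obtain ⟨hCE, hbC, hBC, hBD⟩ := hC
  refine ⟨C, hCE, hbC, hBC, hBD, ?_⟩
  rw [Finset.disjoint_left]
  intro p hpb hpC
  have hpb' : p ∉ b' := fun h => disjoint_left.1 hbC h hpC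
  obtain ⟨H, hHE, ht, hpH, hH'⟩ := hH p (mem_sdiff.2 ⟨hpb, hpb'⟩)
  set C2 := E \ (b' ∪ C) with hC2
  have hCC : Disjoint C C2 := by
    rw [Finset.disjoint_left]
    intro x hx hx'
    exact (mem_sdiff.1 hx').2 (mem_union_right _ hx)
  have hun : C ∪ C2 = E \ b' := by
    ext x
    simp only [mem_union, mem_sdiff, hC2]
    have h1 : x ∈ C → x ∈ E := fun h => hCE h
    have h2 : x ∈ C → x ∉ b' := fun h h' => disjoint_left.1 hbC h' h
    tauto
  have n1 := swapH hE hb' hCC hun hBC hBD hHE ht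
  have n2 := swapH hE hb' hCC.symm (by rw [union_comm]; exact hun) hBD hBC hHE ht
  have hC'E : C ∩ H ∪ C2 \ H ⊆ E :=
    union_subset (inter_subset_left.trans hCE) (sdiff_subset.trans sdiff_subset)
  have hC2b : ∀ x ∈ C2, x ∉ b' := fun x hx h => (mem_sdiff.1 hx).2 (mem_union_left _ h)
  have hbC' : Disjoint b' (C ∩ H ∪ C2 \ H) := by
    rw [Finset.disjoint_left]
    intro x hx hx'
    rcases mem_union.1 hx' with h | h
    · exact disjoint_left.1 hbC hx (mem_inter.1 h).1
    · exact hC2b x (mem_sdiff.1 h).1 hx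
  have e3 : E \ (b' ∪ (C ∩ H ∪ C2 \ H)) = C2 ∩ H ∪ C \ H := by
    ext x
    simp only [mem_union, mem_sdiff, mem_inter, hC2]
    have h1 : x ∈ C → x ∈ E := fun h => hCE h
    have h2 : x ∈ C → x ∉ b' := fun h h' => disjoint_left.1 hbC h' h
    tauto
  have h5 := hm (C ∩ H ∪ C2 \ H) (by
    rw [mem_filter, mem_powerset]
    refine ⟨hC'E, hbC', n1, ?_⟩
    rw [e3]
    exact n2)
  have h6 : b ∩ (C ∩ H ∪ C2 \ H) ⊆ (b ∩ C).erase p := by
    intro x hx
    obtain ⟨hxb, hx'⟩ := mem_inter.1 hx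
    rcases mem_union.1 hx' with h | h
    · have h7 := mem_inter.1 h
      exact mem_erase.2 ⟨fun h8 => hpH (h8 ▸ h7.2), mem_inter.2 ⟨hxb, h7.1⟩⟩
    · exfalso
      have h7 := mem_sdiff.1 h
      have hxb' : x ∉ b' := hC2b x h7.1
      have hxp : x ≠ p := by
        rintro rfl
        exact disjoint_left.1 hCC hpC h7.1
      exact h7.2 (hH' (mem_erase.2 ⟨hxp, mem_sdiff.2 ⟨hxb, hxb'⟩⟩))
  have h7 := card_le_card h6
  rw [card_erase_of_mem (mem_inter.2 ⟨hpb, hpC⟩)] at h7
  have h8 : 0 < (b ∩ C).card := card_pos.2 ⟨p, mem_inter.2 ⟨hpb, hpC⟩⟩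
  have h5' : (b ∩ C).card ≤ (b ∩ (C ∩ H ∪ C2 \ H)).card := h5
  omega

/-- Two disjoint good bases of a strict system are in the same class. -/
def Disj (α : Type*) [DecidableEq α] : Prop :=
  ∀ (E : Finset α) (r : Finset α → ℕ) (f : ℕ) (Q : Finset α → Prop) (A B : Finset α),
    Env r E f → Strict r E → (∀ A A', Stp r E f A A' → Q A → Q A') →
    Gd r E f A → Gd r E f B → Disjoint A B → Q A → Q B

theorem sw_of_disj (h : Disj α) : SW α := by
  classical
  intro E r f Q A B hE hs hQ hA hB hQA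
  by_contra hQB
  have hQ' : ∀ A A', Stp r E f A A' → Q A' → Q A := fun A A' hAA hq => hQ _ _ (stp_symm hAA) hq
  have key : ∀ n : ℕ, ∀ b b' : Finset α, (b \ b').card = n → Gd r E f b → Gd r E f b' →
      Q b → ¬ Q b' → False := by
    intro n
    induction n using Nat.strong_induction_on with
    | _ n ih =>
      intro b b' hn hb hb' hqb hqb'
      have hne : (b \ b').Nonempty := by
        rw [Finset.nonempty_iff_ne_empty]
        intro h0
        have h1 : b ⊆ b' := sdiff_eq_empty_iff_subset.1 h0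
        have h2 : b = b' := eq_of_subset_of_card_le h1 (by rw [hb.2.1.1, hb'.2.1.1])
        exact hqb' (h2 ▸ hqb)
      rcases between hE hb hb' hne with ⟨c, hc, h1, h2⟩ | hH
      · by_cases hqc : Q c
        · exact ih _ (hn ▸ h1) c b' rfl hc hb' hqc hqb'
        · exact ih _ (hn ▸ h2) b c rfl hb hc hqb hqc
      · obtain ⟨C, hCE, hbC, hBC, hBD, hbC'⟩ := third hE hb' hH
        have h1 : Stp r E f b' C := gd_stp hE hb'.1 hb'.2.1 hCE hbC hBC hBD
        have hC : Gd r E f C := stp_right hE h1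
        exact hqb' (hQ _ _ (stp_symm h1) (h E r f Q b C hE hs hQ hb hC hbC' hqb))
  exact key _ A B rfl hA hB hQA hQB

/-- The full statement from `DISJ`. -/
theorem quads_of_disj {β : Type*} [DecidableEq β] (h : Disj (β × ℕ)) (K : Type*) [Field K]
    (M : Matroid β) [M.Finite] [M.RankPos] :
    Pool.Agent.H94.toricIdeal K M =
      Ideal.span {f | f ∈ Pool.Agent.H94.toricIdeal K M ∧ f.IsHomogeneous 2} :=
  quadsW (sw_of_disj h) K M

end Pool.Agent.WT59
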