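import Pool.Agent.WT59.Tstar
import Pool.Agent.CF98.Circ

/-!
The outer lemma (notes 2398, 2436 of MP_e6151a_ag): `q` strictly 2-sparse of rank `g` on `E`, `|E| = 2 g + m`, `k` of rank `m` with
`min m (q X) ≤ k X`.  Then every class function of the triple `(q; k, q)` is constant.

* `circ_split`: a circuit is not the union of two non-empty skew sets.
* `swap_k`: if the elements of `P' \ P` are coloops of `k` on `E \ P` and those of `P \ P'` are coloops of `k` on `E \ P'`, then a state
  `(P, J, T)` gives a state `(P', J', T)`.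
* `outer`: the outer lemma.
-/

set_option autoImplicit false

namespace Pool.Agent.WT59

open Finset Pool.Agent.DT3 Pool.Agent.CF98

variable {α : Type*} [DecidableEq α] {p k q : Finset α → ℕ} {E P P' J T Z A B C R : Finset α}
  {c : Finset α → Finset α → Finset α → Prop} {x : α} {g m : ℕ}

theorem circ_split (hq : RankFn q) (hZ : Z.card = q Z + 1) (hd : Disjoint R B)
    (hRB : R ∪ B = Z.filter fun c => q (Z.erase c) = q Z) (hs : q R + q B = q (R ∪ B)) :
    R = ∅ ∨ B = ∅ := by
  by_contra hcon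
  simp only [not_or, ← nonempty_iff_ne_empty] at hcon
  obtain ⟨⟨a, ha⟩, ⟨b, hb⟩⟩ := hcon
  have h1 := circ_card hq hZ
  rw [← hRB, card_union_of_disjoint hd] at h1
  have h2 : q R = R.card := by
    by_contra hne
    have h3 := circ_of_dep hq hZ (hRB ▸ subset_union_left) hne
    rw [← hRB] at h3
    have h4 : b ∈ R := by rw [h3]; exact mem_union_right _ hb
    exact disjoint_left.1 hd h4 hb
  have h3 : q B = B.card := by
    by_contra hne
    have h3 := circ_of_dep hq hZ (hRB ▸ subset_union_right) hne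
    rw [← hRB] at h3
    have h4 : a ∈ B := by rw [h3]; exact mem_union_left _ ha
    exact disjoint_left.1 hd ha h4
  omega

theorem swap_k (hk : RankFn k) (hP : St p k q E P J T) (hP'E : P' ⊆ E) (hP'c : P'.card = p E)
    (hP'r : p P' = p E) (hkP : k (E \ P') = k E)
    (h1 : ∀ φ ∈ P' \ P, k ((E \ P).erase φ) ≠ k (E \ P))
    (h2 : ∀ φ ∈ P \ P', k ((E \ P').erase φ) ≠ k (E \ P')) : ∃ J', St p k q E P' J' T := by
  have hJE := hP.subB
  have hPE := hP.subA
  have hJP : J ⊆ E \ P := fun y hy => mem_sdiff.2 ⟨hJE hy, fun h => disjoint_left.1 hP.dab h hy⟩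
  have hDJ : P' \ P ⊆ J := by
    intro φ hφ
    by_contra hn
    have h3 : J ⊆ (E \ P).erase φ := fun y hy => mem_erase.2 ⟨fun e => hn (e ▸ hy), hJP hy⟩
    have h4 := hk.mono _ _ h3
    have h5 := hk.mono _ _ (erase_subset φ (E \ P))
    have h6 := hk.mono (E \ P) E sdiff_subset
    have h7 := hP.rb
    exact h1 φ hφ (by omega)
  have hcard : (P' \ P).card = (P \ P').card := by
    have h3 := card_sdiff_add_card_inter P' P
    have h4 := card_sdiff_add_card_inter P P'
    rw [inter_comm] at h4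
    have h5 := hP.ca
    omega
  have hS : J \ (P' \ P) ⊆ (E \ P') \ (P \ P') := by
    intro y hy
    have h3 := mem_sdiff.1 hy
    have h4 := mem_sdiff.1 (hJP h3.1)
    have h5 : y ∉ P' := fun h => h3.2 (mem_sdiff.2 ⟨h, h4.2⟩)
    exact mem_sdiff.2 ⟨mem_sdiff.2 ⟨h4.1, h5⟩, fun h => h4.2 (mem_sdiff.1 h).1⟩
  have hK : P \ P' ⊆ E \ P' := fun y hy =>
    mem_sdiff.2 ⟨hPE (mem_sdiff.1 hy).1, (mem_sdiff.1 hy).2⟩
  have h3 := coloop_add hk hK h2 hS
  have hJi : k J = J.card := by rw [hP.rb, hP.cb]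
  have h4 := ind_sub hk hJi (sdiff_subset (s := J) (t := P' \ P))
  have h5 := card_sdiff_add_card_eq_card hDJ
  have hcb := hP.cb
  have dJ : Disjoint (J \ (P' \ P)) (P \ P') := by
    rw [disjoint_left]
    intro y hy hy'
    exact (mem_sdiff.1 (hS hy)).2 hy'
  have hJc : ((J \ (P' \ P)) ∪ (P \ P')).card = k E := by
    rw [card_union_of_disjoint dJ]; omega
  have hTE := hP.subC
  refine ⟨(J \ (P' \ P)) ∪ (P \ P'), hP'c, hP'r, hJc, by omega, hP.cc, hP.rc, ?_, ?_, ?_, ?_⟩
  · rw [disjoint_left]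
    intro y hy hy'
    rcases mem_union.1 hy' with hy' | hy'
    · exact (mem_sdiff.1 (mem_sdiff.1 (hS hy')).1).2 hy
    · exact (mem_sdiff.1 hy').2 hy
  · rw [disjoint_left]
    intro y hy hy'
    by_cases hyP : y ∈ P
    · exact disjoint_left.1 hP.dac hyP hy'
    · exact disjoint_left.1 hP.dbc (hDJ (mem_sdiff.2 ⟨hy, hyP⟩)) hy'
  · rw [disjoint_left]
    intro y hy hy'
    rcases mem_union.1 hy with hy | hy
    · exact disjoint_left.1 hP.dbc (mem_sdiff.1 hy).1 hy'
    · exact disjoint_left.1 hP.dac (mem_sdiff.1 hy).1 hy'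
  · ext y
    have h6 : y ∈ E ↔ (y ∈ P ∨ y ∈ J) ∨ y ∈ T := by rw [← hP.un, mem_union, mem_union]
    have h7 : y ∈ P' → y ∈ E := fun h => hP'E h
    simp only [mem_union, mem_sdiff]
    tauto

/-- The hypotheses of the outer lemma. -/
structure Out (q k : Finset α → ℕ) (E : Finset α) (g m : ℕ) : Prop where
  hq : RankFn q
  hk : RankFn k
  card : E.card = 2 * g + m
  rq : q E = g
  rk : k E = m
  sp : ∀ X ⊆ E, X.Nonempty → q X < g → X.card + 1 ≤ 2 * q X
  kq : ∀ X ⊆ E, min m (q X) ≤ k X

/-- The blocks of the first slot. -/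
def Blk (q k : Finset α → ℕ) (E : Finset α) (g m : ℕ) (P : Finset α) : Prop :=
  P ⊆ E ∧ P.card = g ∧ q P = g ∧ k (E \ P) = m ∧ q (E \ P) = g

/-- Both ranks of a large set. -/
private theorem out_count (h : Out q k E g m) (hY : C ⊆ E) (hk : k C = m) (hq : q C = g) {e : ℕ}
    (hc : C.card + e = g + m) {X : Finset α} (hX : X ⊆ C) (hXn : X.Nonempty) (he : e ≤ 1) :
    X.card + e ≤ k X + q X := by
  have h1 := h.kq X (hX.trans hY)
  have h2 := card_sdiff_add_card_eq_card hX
  have h3 := rk_le_union_card h.hk X (C \ X)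
  have h4 := rk_le_union_card h.hq X (C \ X)
  rw [union_sdiff_of_subset hX] at h3 h4
  have h5 := h.hq.mono _ _ (hX.trans hY)
  rw [h.rq] at h5
  rcases Nat.lt_or_ge (q X) g with h6 | h6
  · have h7 := h.sp X (hX.trans hY) hXn h6
    omega
  · omega

private theorem out_st (h : Out q k E g m) (hP : Blk q k E g m P) : ∃ B C, St q k q E P B C := by
  obtain ⟨hPE, hPc, hPq, hPk, hPQ⟩ := hP
  have h1 := card_sdiff_add_card_eq_card hPE
  have hE := h.card
  obtain ⟨C, hC, h2, h3, h4, h5⟩ := split2 (Y := E \ P) h.hk h.hq (by omega) (by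
    intro X hX
    rcases X.eq_empty_or_nonempty with hX0 | hXn
    · rw [hX0, card_empty]; omega
    · have := out_count h (sdiff_subset (s := E) (t := P)) hPk hPQ (e := 0) (by omega) hX hXn (by omega)
      omega)
  refine ⟨(E \ P) \ C, C, ⟨by rw [h.rq, hPc], by rw [h.rq, hPq], by rw [h.rk, h4, hPk], by rw [h.rk, h5, hPk],
    by rw [h.rq, h2, hPQ], by rw [h.rq, h3, hPQ], ?_, ?_, ?_, ?_⟩⟩
  · rw [disjoint_left]
    intro y hy hy'
    exact (mem_sdiff.1 (mem_sdiff.1 hy').1).2 hy
  · rw [disjoint_left]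
    intro y hy hy'
    exact (mem_sdiff.1 (hC hy')).2 hy
  · exact sdiff_disjoint
  · rw [union_assoc, sdiff_union_of_subset hC, union_sdiff_of_subset hPE]

/-- The exchange step. -/
private theorem out_step (h : Out q k E g m) (hg : 1 ≤ g) (hc : Cls q k q E c) (hZE : Z ⊆ E)
    (hZ : Z.card = g + 1) (hZq : q Z = g) (hZk : k (E \ Z) = m) (hZQ : q (E \ Z) = g) {a b : α}
    (ha : a ∈ Z) (haq : q (Z.erase a) = g) (hb : b ∈ Z) (hbq : q (Z.erase b) = g)
    (h1 : ∀ B C, St q k q E (Z.erase a) B C → c (Z.erase a) B C)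
    (h2 : ∀ B C, St q k q E (Z.erase b) B C → ¬ c (Z.erase b) B C) : False := by
  classical
  have hE := h.card
  have hcE := card_sdiff_add_card_eq_card hZE
  set X1 : Finset α := Z.filter fun x => q (Z.erase x) = q Z ∧
    ∀ B C, St q k q E (Z.erase x) B C → c (Z.erase x) B C with hX1
  set X2 : Finset α := Z.filter fun x => q (Z.erase x) = q Z ∧
    ¬ ∀ B C, St q k q E (Z.erase x) B C → c (Z.erase x) B C with hX2
  have hX2' : ∀ x ∈ X2, ∀ B C, St q k q E (Z.erase x) B C → ¬ c (Z.erase x) B C := by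
    intro x hx B C hs hcc
    have h3 := (mem_filter.1 hx).2.2
    refine h3 fun B' C' hs' => (hc.sa _ _ _ _ _ hs hs').1 hcc
  have hnl : ∀ x ∈ E, q {x} ≠ 0 := by
    intro x hx h0
    have h3 := h.sp {x} (singleton_subset_iff.2 hx) (singleton_nonempty x) (by omega)
    rw [card_singleton] at h3
    omega
  have hd : Disjoint X1 X2 := by
    rw [disjoint_left]
    intro x hx hx'
    exact (mem_filter.1 hx').2.2 (mem_filter.1 hx).2.2
  have hu : X1 ∪ X2 = Z.filter fun c => q (Z.erase c) = q Z := by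
    ext x
    simp only [hX1, hX2, mem_union, mem_filter]
    tauto
  have hq0 := h.hq.empty
  have hk0 := h.hk.empty
  have hmain := tstar (p := q) (k := k) (q := q) (E := E) (Z := Z) (F := ∅) (B0 := ∅) (C0 := ∅) (X1 := X1)
    (X2 := X2) (c := c) h.hk h.hq hc (by rw [h.rq, h.rk]; omega) hZE (by rw [h.rq]; omega) (empty_subset _)
    (by simp) (disjoint_empty_left _) (by rw [hk0]; simp) (by rw [hk0]) (by rw [hq0]; simp) (by rw [hq0])
    (by
      intro X hX hXn
      rw [sdiff_empty] at hX
      rw [union_empty, hk0, hq0]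
      have := out_count h (sdiff_subset (s := E) (t := Z)) hZk hZQ (e := 1) (by omega) hX hXn (by omega)
      omega)
    (filter_subset _ _) (filter_subset _ _)
    (by
      intro x hx
      rw [insert_empty_eq, hq0]
      rcases mem_union.1 hx with hx | hx
      · exact hnl x (hZE (mem_filter.1 hx).1)
      · exact hnl x (hZE (mem_filter.1 hx).1))
    (by
      intro x hx
      have h3 := (mem_filter.1 hx).2
      exact ⟨by rw [h3.1, hZq, h.rq], h3.2⟩)
    (by
      intro x hx
      have h3 := (mem_filter.1 hx).2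
      exact ⟨by rw [h3.1, hZq, h.rq], hX2' x hx⟩)
  rw [empty_union, empty_union, empty_union, hq0] at hmain
  rcases circ_split h.hq (by omega) hd hu (by omega) with h3 | h3
  · have h4 : a ∈ X1 := mem_filter.2 ⟨ha, by rw [haq, hZq], h1⟩
    rw [h3] at h4
    exact notMem_empty a h4
  · have hBlk : Blk q k E g m (Z.erase b) := by
      have h5 : E \ Z ⊆ E \ Z.erase b := sdiff_subset_sdiff (Subset.refl _) (erase_subset _ _)
      have h6 := h.hk.mono _ _ h5
      have h7 := h.hq.mono _ _ h5
      have h8 := h.hk.mono (E \ Z.erase b) E sdiff_subset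
      have h9 := h.hq.mono (E \ Z.erase b) E sdiff_subset
      rw [h.rk] at h8
      rw [h.rq] at h9
      exact ⟨(erase_subset _ _).trans hZE, by rw [card_erase_of_mem hb]; omega, hbq, by omega, by omega⟩
    obtain ⟨B, C, hs⟩ := out_st h hBlk
    have h4 : b ∈ X2 := mem_filter.2 ⟨hb, by rw [hbq, hZq], fun h5 => h2 B C hs (h5 B C hs)⟩
    rw [h3] at h4
    exact notMem_empty b h4

/-- Moving a block one step towards another one. -/
private theorem out_move (h : Out q k E g m) (hg : 1 ≤ g) (hc : Cls q k q E c) (hP : Blk q k E g m P)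
    (hP' : Blk q k E g m P') (hx : x ∈ P' \ P) (hk1 : k (E \ insert x P) = m)
    (hq1 : q (E \ insert x P) = g) :
    ∃ P1, Blk q k E g m P1 ∧ (P1 \ P').card + 1 = (P \ P').card ∧ (P' \ P1).card + 1 = (P' \ P).card ∧
      ∀ B C B' C', St q k q E P B C → St q k q E P1 B' C' → (c P B C ↔ c P1 B' C') := by
  obtain ⟨hPE, hPc, hPq, hPk, hPQ⟩ := hP
  obtain ⟨hPE', hPc', hPq', hPk', hPQ'⟩ := hP'
  have hx' := mem_sdiff.1 hx
  have hZE : insert x P ⊆ E := insert_subset (hPE' hx'.1) hPE
  have hZc : (insert x P).card = g + 1 := by rw [card_insert_of_notMem hx'.2, hPc]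
  have hZq : q (insert x P) = g := by
    have h1 := h.hq.mono P (insert x P) (subset_insert _ _)
    have h2 := h.hq.mono (insert x P) E hZE
    rw [h.rq] at h2
    omega
  -- an element of the circuit outside `P'`
  have hy : ∃ y ∈ P, y ∉ P' ∧ q ((insert x P).erase y) = g := by
    by_contra hcon
    simp only [not_exists, not_and] at hcon
    have h1 : q ((insert x P).filter fun c => q ((insert x P).erase c) = q (insert x P)) =
        ((insert x P).filter fun c => q ((insert x P).erase c) = q (insert x P)).card := by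
      refine ind_sub (Y := P') h.hq (by rw [hPq', hPc']) ?_
      intro y hy
      have h2 := mem_filter.1 hy
      rcases mem_insert.1 h2.1 with h3 | h3
      · rw [h3]; exact hx'.1
      · by_contra h4
        exact hcon y h3 h4 (by rw [h2.2, hZq])
    have h2 := circ_card h.hq (G := insert x P) (by omega)
    omega
  obtain ⟨y, hyP, hyP', hyq⟩ := hy
  have hyx : y ≠ x := fun e => hyP' (e ▸ hx'.1)
  have hBlk1 : ∀ z ∈ insert x P, q ((insert x P).erase z) = g → Blk q k E g m ((insert x P).erase z) := by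
    intro z hz hzq
    have h5 : E \ insert x P ⊆ E \ (insert x P).erase z := sdiff_subset_sdiff (Subset.refl _) (erase_subset _ _)
    have h6 := h.hk.mono _ _ h5
    have h7 := h.hq.mono _ _ h5
    have h8 := h.hk.mono (E \ (insert x P).erase z) E sdiff_subset
    have h9 := h.hq.mono (E \ (insert x P).erase z) E sdiff_subset
    rw [h.rk] at h8
    rw [h.rq] at h9
    exact ⟨(erase_subset _ _).trans hZE, by rw [card_erase_of_mem hz]; omega, hzq, by omega, by omega⟩
  have hPx : (insert x P).erase x = P := erase_insert hx'.2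
  refine ⟨(insert x P).erase y, hBlk1 y (mem_insert_of_mem hyP) hyq, ?_, ?_, ?_⟩
  · have h1 : (insert x P).erase y \ P' = (P \ P').erase y := by
      ext z
      simp only [mem_sdiff, mem_erase, mem_insert, ne_eq]
      constructor
      · rintro ⟨⟨h2, h3 | h3⟩, h4⟩
        · exact absurd (h3 ▸ hx'.1) h4
        · exact ⟨h2, h3, h4⟩
      · rintro ⟨h2, h3, h4⟩
        exact ⟨⟨h2, Or.inr h3⟩, h4⟩
    have h2 : y ∈ P \ P' := mem_sdiff.2 ⟨hyP, hyP'⟩
    rw [h1, card_erase_of_mem h2]
    have h3 := card_pos.2 ⟨y, h2⟩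
    omega
  · have h1 : P' \ (insert x P).erase y = (P' \ P).erase x := by
      ext z
      simp only [mem_sdiff, mem_erase, mem_insert, ne_eq]
      constructor
      · rintro ⟨h2, h3⟩
        refine ⟨fun e => h3 ⟨fun e' => hyx (e' ▸ e), Or.inl e⟩, h2, fun h4 => h3 ⟨fun e => hyP' (e ▸ h2), Or.inr h4⟩⟩
      · rintro ⟨h2, h3, h4⟩
        exact ⟨h3, fun h5 => h5.2.elim h2 h4⟩
    rw [h1, card_erase_of_mem hx]
    have h3 := card_pos.2 ⟨x, hx⟩
    omega
  · intro B C B' C' hs hs'
    by_contra hne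
    have hxq : q ((insert x P).erase x) = g := by rw [hPx, hPq]
    by_cases hcc : c P B C
    · refine out_step h hg hc hZE hZc hZq hk1 hq1 (mem_insert_self x P) hxq (mem_insert_of_mem hyP) hyq ?_ ?_
      · rw [hPx]
        intro B1 C1 h1
        exact (hc.sa _ _ _ _ _ hs h1).1 hcc
      · intro B1 C1 h1 h2
        exact hne ⟨fun _ => (hc.sa _ _ _ _ _ h1 hs').1 h2, fun _ => hcc⟩
    · refine out_step h hg hc hZE hZc hZq hk1 hq1 (mem_insert_of_mem hyP) hyq (mem_insert_self x P) hxq ?_ ?_
      · intro B1 C1 h1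
        by_contra h2
        exact hne ⟨fun h3 => absurd h3 hcc, fun h3 => absurd ((hc.sa _ _ _ _ _ hs' h1).1 h3) h2⟩
      · rw [hPx]
        intro B1 C1 h1 h2
        exact hcc ((hc.sa _ _ _ _ _ h1 hs).1 h2)

private theorem out_main (h : Out q k E g m) (hg : 1 ≤ g) (hc : Cls q k q E c) (n : ℕ) :
    ∀ P P' B C B' C', (P \ P').card ≤ n → St q k q E P B C → St q k q E P' B' C' →
      Blk q k E g m P → Blk q k E g m P' → (c P B C ↔ c P' B' C') := by
  induction n with
  | zero =>
    intro P P' B C B' C' hn hs hs' _ _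
    have h1 : P ⊆ P' := by
      rw [← sdiff_eq_empty_iff_subset, ← card_eq_zero]; omega
    have h2 : P = P' := eq_of_subset_of_card_le h1 (by rw [hs.ca, hs'.ca])
    subst h2
    exact hc.sa _ _ _ _ _ hs hs'
  | succ n ih =>
    intro P P' B C B' C' hn hs hs' hP hP'
    rcases Nat.lt_or_ge (P \ P').card (n + 1) with hlt | hge
    · exact ih P P' B C B' C' (by omega) hs hs' hP hP'
    have hsym : (P' \ P).card = (P \ P').card := by
      have h3 := card_sdiff_add_card_inter P' P
      have h4 := card_sdiff_add_card_inter P P'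
      rw [inter_comm] at h4
      have h5 := hs.ca
      have h6 := hs'.ca
      omega
    by_cases h1 : ∃ x ∈ P' \ P, k (E \ insert x P) = m ∧ q (E \ insert x P) = g
    · obtain ⟨x, hx, hk1, hq1⟩ := h1
      obtain ⟨P1, hB1, hc1, _, hcol⟩ := out_move h hg hc hP hP' hx hk1 hq1
      obtain ⟨B1, C1, hs1⟩ := out_st h hB1
      exact (hcol B C B1 C1 hs hs1).trans (ih P1 P' B1 C1 B' C' (by omega) hs1 hs' hB1 hP')
    by_cases h2 : ∃ x ∈ P \ P', k (E \ insert x P') = m ∧ q (E \ insert x P') = g
    · obtain ⟨x, hx, hk1, hq1⟩ := h2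
      obtain ⟨P1, hB1, _, hc1, hcol⟩ := out_move h hg hc hP' hP hx hk1 hq1
      obtain ⟨B1, C1, hs1⟩ := out_st h hB1
      exact (ih P P1 B C B1 C1 (by omega) hs hs1 hP hB1).trans (hcol B' C' B1 C1 hs' hs1).symm
    simp only [not_exists, not_and] at h1 h2
    have hE := h.card
    obtain ⟨hPE, hPc, hPq, hPk, hPQ⟩ := hP
    obtain ⟨hPE', hPc', hPq', hPk', hPQ'⟩ := hP'
    -- a set with `g + m - 1` elements
    have hbig : ∀ Z ⊆ E, Z.card = g + 1 → g ≤ m → q (E \ Z) = g := by
      intro Z hZ hZc hgm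
      have h3 := card_sdiff_add_card_eq_card hZ
      have h4 := h.hq.mono (E \ Z) E sdiff_subset
      rw [h.rq] at h4
      rcases Nat.lt_or_ge (q (E \ Z)) g with h5 | h5
      · have h6 : (E \ Z).Nonempty := by
          rw [← card_pos]; omega
        have h7 := h.sp (E \ Z) sdiff_subset h6 h5
        omega
      · omega
    have hsmall : ∀ Z ⊆ E, m ≤ g → q (E \ Z) = g → k (E \ Z) = m := by
      intro Z hZ hmg hq1
      have h3 := h.kq (E \ Z) sdiff_subset
      have h4 := h.hk.mono (E \ Z) E sdiff_subset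
      rw [h.rk] at h4
      omega
    have her : ∀ (x : α) (P : Finset α), (E \ P).erase x = E \ insert x P := by
      intro x P
      ext z
      simp only [mem_erase, mem_sdiff, mem_insert, ne_eq]
      tauto
    rcases Nat.le_total g m with hgm | hgm
    · obtain ⟨J', hs1⟩ := swap_k (P' := P') h.hk hs hPE' (by rw [h.rq, hPc']) (by rw [h.rq, hPq']) (by rw [h.rk, hPk'])
        (by
          intro x hx he
          rw [her, hPk] at he
          have hx' := mem_sdiff.1 hx
          refine h1 x hx he (hbig _ (insert_subset (hPE' hx'.1) hPE) ?_ hgm)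
          rw [card_insert_of_notMem hx'.2, hPc])
        (by
          intro x hx he
          rw [her, hPk'] at he
          have hx' := mem_sdiff.1 hx
          refine h2 x hx he (hbig _ (insert_subset (hPE hx'.1) hPE') ?_ hgm)
          rw [card_insert_of_notMem hx'.2, hPc'])
      exact (hc.sc _ _ _ _ _ hs hs1).trans (hc.sa _ _ _ _ _ hs1 hs')
    · obtain ⟨J', hs1⟩ := swap_k (p := q) (k := q) (q := k) (P' := P') h.hq hs.swap23 hPE' (by rw [h.rq, hPc'])
        (by rw [h.rq, hPq']) (by rw [h.rq, hPQ'])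
        (by
          intro x hx he
          rw [her, hPQ] at he
          have hx' := mem_sdiff.1 hx
          exact h1 x hx (hsmall _ (insert_subset (hPE' hx'.1) hPE) hgm he) he)
        (by
          intro x hx he
          rw [her, hPQ'] at he
          have hx' := mem_sdiff.1 hx
          exact h2 x hx (hsmall _ (insert_subset (hPE hx'.1) hPE') hgm he) he)
      exact (hc.sb _ _ _ _ _ hs hs1.swap23).trans (hc.sa _ _ _ _ _ hs1.swap23 hs')

theorem outer (h : Out q k E g m) (hc : Cls q k q E c) {A' B' C' : Finset α}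
    (hs : St q k q E A B C) (hs' : St q k q E A' B' C') : c A B C ↔ c A' B' C' := by
  rcases Nat.eq_zero_or_pos g with hg | hg
  · have h1 : A = ∅ := by
      rw [← card_eq_zero, hs.ca, h.rq]; exact hg
    have h2 : A' = ∅ := by
      rw [← card_eq_zero, hs'.ca, h.rq]; exact hg
    subst h1
    subst h2
    exact hc.sa _ _ _ _ _ hs hs'
  · have hblk : ∀ A B C, St q k q E A B C → Blk q k E g m A := by
      intro A B C hs
      have h3 := h.hk.mono _ _ (fun y hy => by rw [hs.sdA]; exact mem_union_left _ hy : B ⊆ E \ A)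
      have h4 := h.hq.mono _ _ (fun y hy => by rw [hs.sdA]; exact mem_union_right _ hy : C ⊆ E \ A)
      have h5 := h.hk.mono (E \ A) E sdiff_subset
      have h6 := h.hq.mono (E \ A) E sdiff_subset
      have h7 := hs.rb
      have h8 := hs.rc
      have h9 := h.rk
      have h10 := h.rq
      exact ⟨hs.subA, by rw [hs.ca, h.rq], by rw [hs.ra, h.rq], by omega, by omega⟩
    exact out_main h hg hc (A \ A').card A A' B C B' C' le_rfl hs hs' (hblk A B C hs) (hblk A' B' C' hs')

end Pool.Agent.WT59
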