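import Pool.Agent.CF98.Desc
import Pool.Agent.CF98.SkI
import Pool.Agent.CF98.MatInt

/-!
Weak conjecture of White, three blocks, all matroids (problem MP_e6151a_ag): the exchange lemma (T*) for two
arbitrary matroids with rank functions `r` and `k`.

`Y` with `|Y| = f + g - 1`, `k Y = g`, `|X| + 1 ≤ r X + k X` for `∅ ≠ X ⊆ Y`.

* `holesK`: for every non-loop `x` with `r (insert x Y) = f` there is `T ⊆ Y` with `|T| = f - 1`, `Y \ T` a basis of `k` and
  `r (insert x T) = f`.
* `skewK`: if every independent `J ⊆ Y` with `|J| = f - 1` and `k (Y \ J) = g` spans `X1` or `X2`, then `X1` and `X2` are skew.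
-/

set_option autoImplicit false

namespace Pool.Agent.WT59

open Finset Pool.Agent.DT3 Pool.Agent.CF98

variable {α : Type*} [DecidableEq α] {r k : Finset α → ℕ} {Y X1 X2 : Finset α} {f g : ℕ} {x : α}

theorem holesK (h : RankFn r) (hk : RankFn k) (hY : Y.card + 1 = f + g) (hkY : k Y = g)
    (hs : ∀ X ⊆ Y, X.Nonempty → X.card + 1 ≤ r X + k X) (hx : 0 < r {x}) (hr : r (insert x Y) = f) :
    ∃ T ⊆ Y, T.card + 1 = f ∧ r T + 1 = f ∧ k (Y \ T) = g ∧ r (insert x T) = f := by
  have hf : 1 ≤ f := by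
    have h1 := h.mono {x} (insert x Y) (singleton_subset_iff.2 (mem_insert_self x Y))
    omega
  have hx1 : r {x} = 1 := by
    have h1 := h.le_card {x}
    rw [card_singleton] at h1
    omega
  have hm := contr_rank h {x}
  have hp := rk_dual hk Y
  obtain ⟨T, hT, hT1, hT2, hT3⟩ := matInt Y.card Y _ _ (f - 1) le_rfl hm hp (by
    intro S hS
    show f - 1 ≤ (r (S ∪ {x}) - r {x}) + (((Y \ S) ∩ Y).card + k (Y \ (Y \ S)) - k Y)
    rw [inter_eq_left.2 (sdiff_subset (s := Y) (t := S)), Finset.sdiff_sdiff_eq_self hS, hkY, hx1]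
    have h1 := card_sdiff_add_card_eq_card hS
    have h2 := h.mono {x} (S ∪ {x}) subset_union_right
    rcases S.eq_empty_or_nonempty with he | hne
    · rw [he, card_empty] at h1
      rw [he, hk.empty, empty_union, hx1, sdiff_empty]
      omega
    · have h3 := hs S hS hne
      have h4 := h.mono S (S ∪ {x}) subset_union_left
      have h5 : g ≤ (Y \ S).card + k S := by
        have h6 := rk_le_union_card hk S (Y \ S)
        rw [union_sdiff_of_subset hS, hkY] at h6
        omega
      omega)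
  have hT2' : r (T ∪ {x}) - r {x} = f - 1 := hT2
  have hT3' : (T ∩ Y).card + k (Y \ T) - k Y = f - 1 := hT3
  rw [inter_eq_left.2 hT, hkY] at hT3'
  have h1 := h.mono {x} (T ∪ {x}) subset_union_right
  have h2 : insert x T = T ∪ {x} := by rw [union_comm, ← insert_eq]
  have h3 := hk.mono (Y \ T) Y sdiff_subset
  have h4 := card_sdiff_add_card_eq_card hT
  have h5 : r (insert x T) = f := by rw [h2]; omega
  have h6 := h.insert_le x T
  have h7 := h.le_card T
  have h8 := hk.le_card (Y \ T)
  have h9 : k (Y \ T) = g := by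
    rcases Nat.eq_or_lt_of_le hf with hf1 | hf1
    · have h10 : T = ∅ := by rw [← card_eq_zero]; omega
      rw [h10, sdiff_empty, hkY]
    · omega
  exact ⟨T, hT, by omega, by omega, h9, h5⟩

theorem skewK (h : RankFn r) (hk : RankFn k) (hY : Y.card + 1 = f + g) (hkY : k Y = g)
    (hs : ∀ X ⊆ Y, X.Nonempty → X.card + 1 ≤ r X + k X) (hl : ∀ x ∈ X1 ∪ X2, 0 < r {x})
    (hYr : ∀ x ∈ Y ∪ (X1 ∪ X2), r (insert x Y) = f)
    (hr : r (Y ∪ (X1 ∪ X2)) = f) (hf : 1 ≤ f) (hlY : ∀ x ∈ Y, 0 < r {x})
    (hJ : ∀ J ⊆ Y, J.card + 1 = f → r J + 1 = f → k (Y \ J) = g →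
      (∀ x ∈ X1, r (insert x J) = r J) ∨ (∀ x ∈ X2, r (insert x J) = r J)) :
    r X1 + r X2 = r (X1 ∪ X2) := by
  set G : Finset α := Y ∪ (X1 ∪ X2) with hG
  have hYG : Y ⊆ G := subset_union_left
  have hX1G : X1 ⊆ G := fun x hx => mem_union_right _ (mem_union_left _ hx)
  have hX2G : X2 ⊆ G := fun x hx => mem_union_right _ (mem_union_right _ hx)
  have hloop : ∀ g ∈ G, 0 < r {g} := by
    intro g hg
    rcases mem_union.1 hg with hg | hg
    · exact hlY g hg
    · exact hl g hg
  have hp := rk_dual hk Y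
  have hmain : Sk r X1 X2 (clo r G ∅) := by
    refine desc G.card G r (fun X : Finset α => (X ∩ Y).card + k (Y \ X) - k Y) (f - 1)
      (fun F => Sk r X1 X2 F) le_rfl h hp (by omega) ?_ ?_ ?_ ?_
    · show (G ∩ Y).card + k (Y \ G) - k Y = f - 1
      rw [inter_eq_right.2 hYG, sdiff_eq_empty_iff_subset.2 hYG, hk.empty, hkY]
      omega
    · intro x hx
      obtain ⟨T, hT, hT1, hT2, hT3, hT4⟩ := holesK h hk hY hkY hs (hloop x hx) (hYr x hx)
      refine ⟨T, ⟨hT.trans hYG, by omega, by omega, ?_⟩, by omega⟩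
      show (T ∩ Y).card + k (Y \ T) - k Y = f - 1
      rw [inter_eq_left.2 hT, hT3, hkY]
      omega
    · rintro T ⟨hT1, hT2, hT3, hT4⟩
      have hT4' : (T ∩ Y).card + k (Y \ T) - k Y = f - 1 := hT4
      rw [hkY] at hT4'
      have h1 : (T ∩ Y).card ≤ T.card := card_le_card inter_subset_left
      have h2 : k (Y \ T) ≤ k Y := hk.mono _ _ sdiff_subset
      have h3 : (T ∩ Y).card = T.card ∧ k (Y \ T) = g := by
        rcases Nat.eq_or_lt_of_le hf with hf1 | hf1
        · have h4 : T = ∅ := by rw [← card_eq_zero]; omega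
          subst h4
          refine ⟨by simp, by rw [sdiff_empty, hkY]⟩
        · omega
      have h4 : T ⊆ Y := by
        have h5 : T ∩ Y = T := eq_of_subset_of_card_le inter_subset_left (by omega)
        exact inter_eq_left.1 h5
      have h5 := hJ T h4 (by omega) (by omega) h3.2
      show Sk r X1 X2 (clo r G T)
      unfold Sk
      rcases h5 with h5 | h5
      · have h6 : X1 ⊆ clo r G T := fun x hx => by
          rw [clo, mem_filter]; exact ⟨hX1G hx, h5 x hx⟩
        rw [← union_assoc, union_eq_left.2 h6]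
        omega
      · have h6 : X2 ⊆ clo r G T := fun x hx => by
          rw [clo, mem_filter]; exact ⟨hX2G hx, h5 x hx⟩
        rw [union_comm X1 X2, ← union_assoc, union_eq_left.2 h6]
    · intro F F' hF hF' hS hS' hrF
      exact sk_inter h hF hF' hS hS' hrF
  have hce : clo r G ∅ = ∅ := by
    apply eq_empty_of_forall_notMem
    intro e he
    rw [clo, mem_filter, insert_empty_eq, h.empty] at he
    have h1 := hloop e he.1
    omega
  rw [hce] at hmain
  unfold Sk at hmain
  rw [empty_union, empty_union, empty_union, h.empty] at hmain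
  omega

end Pool.Agent.WT59
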